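import Pool.Agent.Helper38K9.PT.Hyp

/-!
Application of the analytic theorem to linear triple systems.
-/

namespace Pool.Agent.Helper38K9.PT

open Finset

variable {V : Type} [Fintype V] [DecidableEq V] (H : LTS V)

/-- weight of `(v; y, z)` -/
noncomputable def LTS.wt (v y z : V) : ℝ := ∑ b, H.W v b * H.T b y z

theorem LTS.wt_nonneg (v y z : V) : 0 ≤ H.wt v y z :=
  Finset.sum_nonneg fun _ _ => mul_nonneg (H.W_nonneg _ _) (H.T_nonneg _ _ _)

theorem LTS.wt_le_one (v y z : V) : H.wt v y z ≤ 1 := by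
  calc H.wt v y z ≤ ∑ b, H.T b y z := by
        apply Finset.sum_le_sum
        intro b _
        have := H.W_le_one v b
        have := H.T_nonneg b y z
        nlinarith
    _ = H.W y z := H.sum_T_left y z
    _ ≤ 1 := H.W_le_one y z

theorem LTS.sum_wt (v y : V) : ∑ z, H.wt v y z = H.cod v y := by
  unfold LTS.wt
  rw [Finset.sum_comm, H.cod_eq]
  apply Finset.sum_congr rfl
  intro b _
  rw [← Finset.mul_sum, H.sum_T]

theorem LTS.sum_wt' (v z : V) : ∑ y, H.wt v y z = H.cod v z := by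
  unfold LTS.wt
  rw [Finset.sum_comm, H.cod_eq]
  apply Finset.sum_congr rfl
  intro b _
  rw [← Finset.mul_sum, H.sum_T_mid]

theorem LTS.exists_of_wt {v y z : V} (h : H.wt v y z ≠ 0) :
    ∃ b, H.Adj v b ∧ ({b, y, z} : Finset V) ∈ H.edges := by
  by_contra hcon
  push Not at hcon
  apply h
  apply Finset.sum_eq_zero
  intro b _
  by_cases hb : H.Adj v b
  · rw [LTS.T, if_neg (hcon b hb), mul_zero]
  · rw [LTS.W, if_neg hb, zero_mul]

theorem LTS.sum_cod_self : ∑ v, (H.cod v v : ℝ) = 6 * H.edges.card := by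
  rw [← H.sum_W]
  apply Finset.sum_congr rfl
  intro v _
  rw [H.cod_eq]
  apply Finset.sum_congr rfl
  intro b _
  rw [H.W_symm b v]
  unfold LTS.W
  split_ifs <;> norm_num

theorem LTS.sum_cod : ∑ v, ∑ y, (H.cod v y : ℝ) = ∑ b, H.dg b ^ 2 := by
  simp only [H.cod_eq]
  have h1 : ∀ b, H.dg b ^ 2 = ∑ v, ∑ y, H.W v b * H.W b y := by
    intro b
    rw [sq, LTS.dg, Finset.sum_mul_sum]
    exact Finset.sum_congr rfl fun v _ => Finset.sum_congr rfl fun y _ => by rw [H.W_symm y b]
  simp only [h1]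
  calc ∑ v, ∑ y, ∑ b, H.W v b * H.W b y = ∑ v, ∑ b, ∑ y, H.W v b * H.W b y :=
        Finset.sum_congr rfl fun v _ => Finset.sum_comm
    _ = _ := Finset.sum_comm

open Classical in
/-- the basic counting inequality; `D` plays the role of `δ² n` -/
theorem LTS.tail_aux (hP : S_PENT1) {D l κ : ℝ} (hD : 100 ≤ D) (hl : 1 ≤ l) (hκ : 0 < κ)
    (hκD : 100 ≤ κ * D) :
    ∑ v, ∑ y, (if l * D < H.cod v y then (H.cod v y : ℝ) else 0) ≤
      κ * D * (Fintype.card V : ℝ) ^ 2 + 12 * H.edges.card +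
        4 * H.G5 / (l * κ * D ^ 2) := by
  have hD0 : 0 < D := by linarith
  have hl0 : 0 < l := by linarith
  have hden : 0 < l * κ * D ^ 2 := by positivity
  have key : ∀ v y z, (if l * D < (H.cod v y : ℝ) then H.wt v y z else 0) ≤
      (if (H.cod v z : ℝ) ≤ κ * D then H.wt v y z else 0) +
      (if v = y then H.wt v y z else 0) + (if v = z then H.wt v y z else 0) +
      (if H.GT v y z then (H.cod v y : ℝ) * H.cod v z else 0) / (l * κ * D ^ 2) := by
    intro v y z
    have hw := H.wt_nonneg v y z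
    have hw1 := H.wt_le_one v y z
    have hnn : 0 ≤ (if H.GT v y z then (H.cod v y : ℝ) * H.cod v z else 0) / (l * κ * D ^ 2) := by
      apply div_nonneg _ hden.le
      split_ifs <;> positivity
    by_cases h1 : l * D < (H.cod v y : ℝ)
    swap
    · rw [if_neg h1]
      have h2 : 0 ≤ (if (H.cod v z : ℝ) ≤ κ * D then H.wt v y z else 0) := by
        split_ifs <;> simp [hw]
      have h3 : 0 ≤ (if v = y then H.wt v y z else 0) := by split_ifs <;> simp [hw]
      have h4 : 0 ≤ (if v = z then H.wt v y z else 0) := by split_ifs <;> simp [hw]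
      linarith
    rw [if_pos h1]
    by_cases h0 : H.wt v y z = 0
    · simp only [h0, ite_self]; linarith
    by_cases h2 : (H.cod v z : ℝ) ≤ κ * D
    · rw [if_pos h2]
      have h3 : 0 ≤ (if v = y then H.wt v y z else 0) := by split_ifs <;> simp [hw]
      have h4 : 0 ≤ (if v = z then H.wt v y z else 0) := by split_ifs <;> simp [hw]
      linarith
    by_cases h3 : v = y
    · rw [if_neg h2, if_pos h3]
      have h4 : 0 ≤ (if v = z then H.wt v y z else 0) := by split_ifs <;> simp [hw]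
      linarith
    by_cases h4 : v = z
    · rw [if_neg h2, if_neg h3, if_pos h4]
      linarith
    rw [if_neg h2, if_neg h3, if_neg h4]
    rw [not_le] at h2
    obtain ⟨b, hb, he⟩ := H.exists_of_wt h0
    have hGT : H.GT v y z := by
      refine ⟨(H.adj_of_edge he).2.2, ?_, h3, h4, ?_, ?_⟩
      · rintro ⟨e, he', hv, hy, hz⟩
        have h5 := H.edge_unique he' he (H.distinct he).2.2 hy hz (by simp) (by simp)
        rw [h5] at hv
        simp only [Finset.mem_insert, Finset.mem_singleton] at hv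
        rcases hv with hv | hv | hv
        · exact hb.1 hv
        · exact h3 hv
        · exact h4 hv
      · have : (100 : ℝ) ≤ H.cod v y := by nlinarith
        exact_mod_cast this
      · have : (100 : ℝ) ≤ H.cod v z := by linarith
        exact_mod_cast this
    rw [if_pos hGT]
    have h6 : 1 ≤ (H.cod v y : ℝ) * H.cod v z / (l * κ * D ^ 2) := by
      rw [le_div_iff₀ hden]
      calc 1 * (l * κ * D ^ 2) = (l * D) * (κ * D) := by ring
        _ ≤ (H.cod v y : ℝ) * H.cod v z :=
          mul_le_mul h1.le h2.le (by positivity) (by positivity)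
    linarith
  have hsum := Finset.sum_le_sum (s := (univ : Finset V)) fun v _ =>
    Finset.sum_le_sum (s := (univ : Finset V)) fun y _ =>
      Finset.sum_le_sum (s := (univ : Finset V)) fun z _ => key v y z
  have hL : ∑ v, ∑ y, ∑ z, (if l * D < (H.cod v y : ℝ) then H.wt v y z else 0) =
      ∑ v, ∑ y, (if l * D < H.cod v y then (H.cod v y : ℝ) else 0) := by
    apply Finset.sum_congr rfl; intro v _; apply Finset.sum_congr rfl; intro y _
    split_ifs
    · exact H.sum_wt v y
    · simp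
  rw [hL] at hsum
  simp only [Finset.sum_add_distrib] at hsum
  have hA : ∑ v, ∑ y, ∑ z, (if (H.cod v z : ℝ) ≤ κ * D then H.wt v y z else 0) ≤
      κ * D * (Fintype.card V : ℝ) ^ 2 := by
    calc ∑ v, ∑ y, ∑ z, (if (H.cod v z : ℝ) ≤ κ * D then H.wt v y z else 0)
        = ∑ v, ∑ z, ∑ y, (if (H.cod v z : ℝ) ≤ κ * D then H.wt v y z else 0) :=
          Finset.sum_congr rfl fun v _ => Finset.sum_comm
      _ ≤ ∑ v : V, ∑ z : V, κ * D := by
          apply Finset.sum_le_sum; intro v _; apply Finset.sum_le_sum; intro z _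
          split_ifs with h
          · rw [H.sum_wt' v z]; exact h
          · simp; positivity
      _ = _ := by
          simp only [Finset.sum_const, nsmul_eq_mul, Finset.card_univ]; ring
  have hB : ∑ v, ∑ y, ∑ z, (if v = y then H.wt v y z else 0) = 6 * H.edges.card := by
    rw [← H.sum_cod_self]
    apply Finset.sum_congr rfl; intro v _
    rw [Finset.sum_eq_single v]
    · simp only [if_true]; exact H.sum_wt v v
    · intro y _ hy
      simp [Ne.symm hy]
    · simp
  have hC : ∑ v, ∑ y, ∑ z, (if v = z then H.wt v y z else 0) = 6 * H.edges.card := by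
    rw [← H.sum_cod_self]
    apply Finset.sum_congr rfl; intro v _
    rw [Finset.sum_comm, Finset.sum_eq_single v]
    · simp only [if_true]; exact H.sum_wt' v v
    · intro y _ hy
      simp [Ne.symm hy]
    · simp
  have hE : ∑ v, ∑ y, ∑ z, (if H.GT v y z then (H.cod v y : ℝ) * H.cod v z else 0) /
      (l * κ * D ^ 2) ≤ 4 * H.G5 / (l * κ * D ^ 2) := by
    simp only [← Finset.sum_div]
    exact div_le_div_of_nonneg_right (H.sum_GT hP) hden.le
  linarith

theorem LTS.second_moment (hP : S_PENT1) {D : ℝ} (hD : 100 ≤ D) :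
    ∑ b, H.dg b ^ 2 ≤ 2 * D * (Fintype.card V : ℝ) ^ 2 + 12 * H.edges.card +
      4 * H.G5 / D ^ 2 := by
  classical
  rw [← H.sum_cod]
  have h1 := H.tail_aux hP hD le_rfl one_pos (by linarith)
  have h2 : ∀ v y, (H.cod v y : ℝ) ≤ D + (if 1 * D < H.cod v y then (H.cod v y : ℝ) else 0) := by
    intro v y
    split_ifs with h
    · linarith
    · rw [not_lt] at h; linarith
  have h3 : ∑ v, ∑ y, (H.cod v y : ℝ) ≤ D * (Fintype.card V : ℝ) ^ 2 +
      ∑ v, ∑ y, (if 1 * D < H.cod v y then (H.cod v y : ℝ) else 0) := by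
    calc ∑ v, ∑ y, (H.cod v y : ℝ)
        ≤ ∑ v, ∑ y, (D + (if 1 * D < H.cod v y then (H.cod v y : ℝ) else 0)) :=
          Finset.sum_le_sum fun v _ => Finset.sum_le_sum fun y _ => h2 v y
      _ = _ := by
          simp only [Finset.sum_add_distrib, Finset.sum_const, nsmul_eq_mul, Finset.card_univ]
          ring
  have h4 : 4 * (H.G5 : ℝ) / (1 * 1 * D ^ 2) = 4 * H.G5 / D ^ 2 := by ring
  rw [h4] at h1
  linarith

/-- normalised kernel -/
noncomputable def LTS.pk (δ : ℝ) (x y : V) : ℝ := H.W x y / δ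

theorem LTS.rho_pk [Nonempty V] {δ : ℝ} (hδ : 0 < δ) (v y : V) :
    rho (H.pk δ) v y = H.cod v y / (δ ^ 2 * Fintype.card V) := by
  have hn : (0 : ℝ) < Fintype.card V := by
    have := Fintype.card_pos (α := V); positivity
  rw [rho, H.cod_eq]
  simp only [LTS.pk]
  rw [div_eq_div_iff hn.ne' (by positivity), Finset.sum_mul, Finset.sum_mul]
  apply Finset.sum_congr rfl
  intro b _
  field_simp

theorem app (hFK : S_FK) (hJ : S_J) (hP : S_PENT1) (C : ℝ) (hC : 0 < C) :
    ∃ A δ0 : ℝ, 1 ≤ A ∧ 0 < δ0 ∧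
    ∀ (V : Type) [Fintype V] [DecidableEq V] [Nonempty V] (H : LTS V) (δ : ℝ), 0 < δ → δ ≤ δ0 →
      6 * (H.edges.card : ℝ) = δ * (Fintype.card V : ℝ) ^ 2 →
      A ≤ δ ^ 2 * Fintype.card V →
      C * δ ^ 6 * (Fintype.card V : ℝ) ^ 5 < H.G5 := by
  classical
  set R : ℝ := 2 + 4 * C with hR
  set K : ℝ := 2 * (3 + 4 * C) with hK
  have hK0 : 0 < K := by positivity
  obtain ⟨L, Lmax, c, hL1, hLm, hc, han⟩ := analytic hFK hJ R K hK0
  have hLm1 : 1 ≤ Lmax := hL1.trans hLm
  set A : ℝ := 20000 + 100 * Real.sqrt Lmax + 6 * L ^ 2 / c with hA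
  have hA1 : 20000 ≤ A := by
    have : 0 ≤ 100 * Real.sqrt Lmax := by positivity
    have : 0 ≤ 6 * L ^ 2 / c := by positivity
    linarith
  have hA2 : 100 * Real.sqrt Lmax ≤ A := by
    have : 0 ≤ 6 * L ^ 2 / c := by positivity
    linarith
  have hA3 : 6 * L ^ 2 / c ≤ A := by
    have : 0 ≤ 100 * Real.sqrt Lmax := by positivity
    linarith
  refine ⟨A, min 1 (c / (16 * C)), by linarith, lt_min one_pos (by positivity), ?_⟩
  intro V _ _ _ H δ hδ hδ0 hm hAn
  have hδ1 : δ ≤ 1 := hδ0.trans (min_le_left _ _)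
  have hδ2 : δ ≤ c / (16 * C) := hδ0.trans (min_le_right _ _)
  set n : ℝ := (Fintype.card V : ℝ) with hn
  have hn0 : 0 < n := by
    have := Fintype.card_pos (α := V); positivity
  by_contra hcon
  rw [not_lt] at hcon
  set D : ℝ := δ ^ 2 * n with hD
  have hD0 : 0 < D := by positivity
  have hD1 : 20000 ≤ D := hA1.trans hAn
  have hDn : D ≤ δ * n := by
    rw [hD]
    have : δ ^ 2 ≤ δ := by nlinarith
    exact mul_le_mul_of_nonneg_right this hn0.le
  have hδn : δ * n ≤ n := by nlinarith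
  -- symmetric, nonnegative kernel
  have hs : ∀ x y, H.pk δ x y = H.pk δ y x := fun x y => by
    unfold LTS.pk; rw [H.W_symm]
  have hp : ∀ x y, 0 ≤ H.pk δ x y := fun x y => div_nonneg (H.W_nonneg _ _) hδ.le
  -- tail
  have hT : Tail (H.pk δ) R Lmax := by
    intro l hl hlm
    have hl0 : 0 < l := by linarith
    have hsl : 0 < Real.sqrt l := Real.sqrt_pos.2 hl0
    have hsl2 : Real.sqrt l * Real.sqrt l = l := Real.mul_self_sqrt hl0.le
    have hsl1 : 1 ≤ Real.sqrt l := Real.one_le_sqrt.2 hl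
    have hslm : 100 * Real.sqrt l ≤ D := by
      have : Real.sqrt l ≤ Real.sqrt Lmax := Real.sqrt_le_sqrt hlm
      linarith
    have h1 := H.tail_aux hP (D := D) (l := l) (κ := 1 / Real.sqrt l) (by linarith) hl
      (by positivity) (by
        rw [div_mul_eq_mul_div, one_mul, le_div_iff₀ hsl]; exact hslm)
    have h2 : ∀ v y, (if l < rho (H.pk δ) v y then rho (H.pk δ) v y else 0) =
        (if l * D < H.cod v y then (H.cod v y : ℝ) else 0) / D := by
      intro v y
      rw [H.rho_pk hδ, ← hn, ← hD]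
      have : l < (H.cod v y : ℝ) / D ↔ l * D < H.cod v y := lt_div_iff₀ hD0
      by_cases h : l * D < (H.cod v y : ℝ)
      · rw [if_pos (this.2 h), if_pos h]
      · rw [if_neg (fun h' => h (this.1 h')), if_neg h, zero_div]
    simp only [h2, ← Finset.sum_div]
    rw [div_le_iff₀ hD0]
    refine h1.trans ?_
    have h3 : 4 * (H.G5 : ℝ) / (l * (1 / Real.sqrt l) * D ^ 2) ≤
        4 * C / Real.sqrt l * n ^ 2 * D := by
      rw [div_le_iff₀ (by positivity)]
      calc 4 * (H.G5 : ℝ) ≤ 4 * (C * δ ^ 6 * n ^ 5) := by linarith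
        _ = 4 * C * n ^ 2 * D ^ 3 := by rw [hD]; ring
        _ = 4 * C / Real.sqrt l * n ^ 2 * D * (l * (1 / Real.sqrt l) * D ^ 2) := by
            have h7 : l * (1 / Real.sqrt l) = Real.sqrt l := by
              rw [mul_one_div]; exact Real.div_sqrt
            rw [h7]; field_simp
    have h4 : 12 * (H.edges.card : ℝ) ≤ 1 / Real.sqrt l * n ^ 2 * D := by
      have h5 : 12 * (H.edges.card : ℝ) = 2 * δ * n ^ 2 := by linarith
      rw [h5]
      have h6 : 2 * Real.sqrt l ≤ δ * n := by linarith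
      calc 2 * δ * n ^ 2 = (2 * Real.sqrt l) * (δ * n ^ 2 / Real.sqrt l) := by
            field_simp
        _ ≤ (δ * n) * (δ * n ^ 2 / Real.sqrt l) :=
            mul_le_mul_of_nonneg_right h6 (by positivity)
        _ = 1 / Real.sqrt l * n ^ 2 * D := by rw [hD]; ring
    calc 1 / Real.sqrt l * D * n ^ 2 + 12 * (H.edges.card : ℝ) +
          4 * (H.G5 : ℝ) / (l * (1 / Real.sqrt l) * D ^ 2)
        ≤ 1 / Real.sqrt l * D * n ^ 2 + 1 / Real.sqrt l * n ^ 2 * D +
          4 * C / Real.sqrt l * n ^ 2 * D := by linarith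
      _ = R / Real.sqrt l * n ^ 2 * D := by rw [hR]; ring
  -- second moment
  have hsm : ∑ b, H.dg b ^ 2 ≤ (3 + 4 * C) * D * n ^ 2 := by
    have h1 := H.second_moment hP (D := D) (by linarith)
    have h2 : 4 * (H.G5 : ℝ) / D ^ 2 ≤ 4 * C * D * n ^ 2 := by
      rw [div_le_iff₀ (by positivity)]
      calc 4 * (H.G5 : ℝ) ≤ 4 * (C * δ ^ 6 * n ^ 5) := by linarith
        _ = 4 * C * D * n ^ 2 * D ^ 2 := by rw [hD]; ring
    have h3 : 12 * (H.edges.card : ℝ) ≤ D * n ^ 2 := by
      have h5 : 12 * (H.edges.card : ℝ) = 2 * δ * n ^ 2 := by linarith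
      rw [h5]
      have h6 : 2 ≤ δ * n := by linarith
      calc 2 * δ * n ^ 2 = 2 * (δ * n ^ 2) := by ring
        _ ≤ (δ * n) * (δ * n ^ 2) := mul_le_mul_of_nonneg_right h6 (by positivity)
        _ = D * n ^ 2 := by rw [hD]; ring
    have h4 : 2 * D * (Fintype.card V : ℝ) ^ 2 + 12 * (H.edges.card : ℝ) + 4 * H.G5 / D ^ 2 ≤
        2 * D * n ^ 2 + D * n ^ 2 + 4 * C * D * n ^ 2 := by
      rw [← hn]; linarith
    linarith
  -- vertices of moderate degree
  set S : Finset V := univ.filter fun b => H.dg b ≤ K * (δ * n) with hS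
  have hδn0 : 0 < δ * n := by positivity
  have hSc : ∑ b ∈ univ.filter (fun b => ¬ H.dg b ≤ K * (δ * n)), H.dg b ≤ δ * n ^ 2 / 2 := by
    have h1 : ∀ b ∈ univ.filter (fun b => ¬ H.dg b ≤ K * (δ * n)),
        H.dg b ≤ H.dg b ^ 2 / (K * (δ * n)) := by
      intro b hb
      rw [Finset.mem_filter, not_le] at hb
      rw [le_div_iff₀ (by positivity)]
      nlinarith [hb.2, H.dg_nonneg b]
    calc _ ≤ ∑ b ∈ univ.filter (fun b => ¬ H.dg b ≤ K * (δ * n)), H.dg b ^ 2 / (K * (δ * n)) :=
          Finset.sum_le_sum h1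
      _ ≤ ∑ b, H.dg b ^ 2 / (K * (δ * n)) := by
          apply Finset.sum_le_sum_of_subset_of_nonneg (Finset.filter_subset _ _)
          intro b _ _
          positivity
      _ = (∑ b, H.dg b ^ 2) / (K * (δ * n)) := by rw [Finset.sum_div]
      _ ≤ ((3 + 4 * C) * D * n ^ 2) / (K * (δ * n)) :=
          div_le_div_of_nonneg_right hsm (by positivity)
      _ = δ * n ^ 2 / 2 := by
          have h34 : (3 + 4 * C) ≠ 0 := by positivity
          rw [hK, hD]; field_simp
  have hS1 : δ * n ^ 2 / 2 ≤ ∑ b ∈ S, H.dg b := by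
    have h1 : ∑ b ∈ S, H.dg b + ∑ b ∈ univ.filter (fun b => ¬ H.dg b ≤ K * (δ * n)), H.dg b =
        ∑ b, H.dg b := Finset.sum_filter_add_sum_filter_not _ _ _
    rw [H.sum_dg, hm] at h1
    linarith
  have hS2 : δ ^ 2 * n ^ 3 / 4 ≤ ∑ b ∈ S, H.dg b ^ 2 := by
    have h1 : (∑ b ∈ S, H.dg b) ^ 2 ≤ S.card * ∑ b ∈ S, H.dg b ^ 2 := sq_sum_le_card_mul_sum_sq
    have h2 : (S.card : ℝ) ≤ n := by
      rw [hn]; exact_mod_cast Finset.card_le_univ S
    have h3 : 0 ≤ ∑ b ∈ S, H.dg b ^ 2 := Finset.sum_nonneg fun b _ => sq_nonneg _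
    have h4 : (δ * n ^ 2 / 2) ^ 2 ≤ (∑ b ∈ S, H.dg b) ^ 2 :=
      pow_le_pow_left₀ (by positivity) hS1 2
    have h5 : (δ * n ^ 2 / 2) ^ 2 ≤ n * ∑ b ∈ S, H.dg b ^ 2 :=
      h4.trans (h1.trans (mul_le_mul_of_nonneg_right h2 h3))
    have h6 : (δ * n ^ 2 / 2) ^ 2 = n * (δ ^ 2 * n ^ 3 / 4) := by ring
    rw [h6] at h5
    exact le_of_mul_le_mul_left h5 hn0
  -- the data Λ
  set Λ : V → V → V → ℝ := fun v y z => (∑ b ∈ S, H.W v b * H.T b y z) / δ ^ 2 with hΛ
  have hΛd : LamData (H.pk δ) K Λ := by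
    constructor
    · intro v y z
      exact div_nonneg (Finset.sum_nonneg fun b _ => mul_nonneg (H.W_nonneg _ _)
        (H.T_nonneg _ _ _)) (by positivity)
    · intro v y
      rw [H.rho_pk hδ, ← hn]
      simp only [hΛ, ← Finset.sum_div]
      have h1 : n * ((H.cod v y : ℝ) / (δ ^ 2 * n)) = H.cod v y / δ ^ 2 := by field_simp
      rw [h1]
      apply div_le_div_of_nonneg_right _ (by positivity)
      rw [← H.sum_wt v y]
      apply Finset.sum_le_sum
      intro z _
      apply Finset.sum_le_sum_of_subset_of_nonneg (Finset.subset_univ _)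
      intro b _ _
      exact mul_nonneg (H.W_nonneg _ _) (H.T_nonneg _ _ _)
    · intro v z
      rw [H.rho_pk hδ, ← hn]
      simp only [hΛ, ← Finset.sum_div]
      have h1 : n * ((H.cod v z : ℝ) / (δ ^ 2 * n)) = H.cod v z / δ ^ 2 := by field_simp
      rw [h1]
      apply div_le_div_of_nonneg_right _ (by positivity)
      rw [← H.sum_wt' v z]
      apply Finset.sum_le_sum
      intro y _
      apply Finset.sum_le_sum_of_subset_of_nonneg (Finset.subset_univ _)
      intro b _ _
      exact mul_nonneg (H.W_nonneg _ _) (H.T_nonneg _ _ _)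
    · intro y z
      simp only [hΛ, ← Finset.sum_div, LTS.pk]
      rw [← hn, div_le_iff₀ (by positivity)]
      have h1 : K * n * (H.W y z / δ) * δ ^ 2 = K * (δ * n) * H.W y z := by
        field_simp
      rw [h1, Finset.sum_comm]
      calc ∑ b ∈ S, ∑ v, H.W v b * H.T b y z = ∑ b ∈ S, H.dg b * H.T b y z := by
            apply Finset.sum_congr rfl
            intro b _
            rw [LTS.dg, Finset.sum_mul]
        _ ≤ ∑ b ∈ S, K * (δ * n) * H.T b y z := by
            apply Finset.sum_le_sum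
            intro b hb
            rw [hS, Finset.mem_filter] at hb
            exact mul_le_mul_of_nonneg_right hb.2 (H.T_nonneg _ _ _)
        _ ≤ ∑ b, K * (δ * n) * H.T b y z := by
            apply Finset.sum_le_sum_of_subset_of_nonneg (Finset.subset_univ _)
            intro b _ _
            exact mul_nonneg (by positivity) (H.T_nonneg _ _ _)
        _ = K * (δ * n) * H.W y z := by
            rw [← Finset.mul_sum, H.sum_T_left]
    · simp only [hΛ, ← Finset.sum_div]
      rw [← hn, le_div_iff₀ (by positivity)]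
      have h1 : ∑ v, ∑ y, ∑ z, ∑ b ∈ S, H.W v b * H.T b y z = ∑ b ∈ S, H.dg b ^ 2 := by
        calc ∑ v, ∑ y, ∑ z, ∑ b ∈ S, H.W v b * H.T b y z
            = ∑ v, ∑ y, ∑ b ∈ S, ∑ z, H.W v b * H.T b y z :=
              Finset.sum_congr rfl fun v _ => Finset.sum_congr rfl fun y _ => Finset.sum_comm
          _ = ∑ v, ∑ b ∈ S, ∑ y, ∑ z, H.W v b * H.T b y z :=
              Finset.sum_congr rfl fun v _ => Finset.sum_comm
          _ = ∑ b ∈ S, ∑ v, ∑ y, ∑ z, H.W v b * H.T b y z := Finset.sum_comm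
          _ = ∑ b ∈ S, H.dg b ^ 2 := by
              apply Finset.sum_congr rfl
              intro b _
              simp only [← Finset.mul_sum, H.sum_TT]
              rw [← Finset.sum_mul, sq]; rfl
      rw [h1]
      calc n ^ 3 / 4 * δ ^ 2 = δ ^ 2 * n ^ 3 / 4 := by ring
        _ ≤ _ := hS2
  -- the main estimate
  have hmain := han V (H.pk δ) Λ hs hp hΛd hT
  rw [← hn] at hmain
  have hterm : ∀ v y z, rhoT (H.pk δ) (1 / 200) L v y * H.pk δ y z *
      rhoT (H.pk δ) (1 / 200) L v z ≤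
      ((if H.GT v y z then (H.cod v y : ℝ) * H.cod v z else 0) +
        (L * D) ^ 2 * ((if v = y then H.W y z else 0) + (if v = z then H.W y z else 0) +
          H.T v y z)) / (δ * D ^ 2) := by
    intro v y z
    rw [le_div_iff₀ (by positivity)]
    have hGTnn : 0 ≤ (if H.GT v y z then (H.cod v y : ℝ) * H.cod v z else 0) := by
      split_ifs <;> positivity
    have hnn1 : 0 ≤ (if v = y then H.W y z else 0) := by
      split_ifs
      · exact H.W_nonneg _ _
      · exact le_rfl
    have hnn2 : 0 ≤ (if v = z then H.W y z else 0) := by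
      split_ifs
      · exact H.W_nonneg _ _
      · exact le_rfl
    have hnn3 := H.T_nonneg v y z
    have hRHS : 0 ≤ (if H.GT v y z then (H.cod v y : ℝ) * H.cod v z else 0) +
        (L * D) ^ 2 * ((if v = y then H.W y z else 0) + (if v = z then H.W y z else 0) +
          H.T v y z) := by positivity
    by_cases hyz : H.Adj y z
    swap
    · have : H.pk δ y z = 0 := by unfold LTS.pk LTS.W; rw [if_neg hyz, zero_div]
      rw [this]; simpa using hRHS
    have hW : H.W y z = 1 := if_pos hyz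
    have hr : ∀ u w, rhoT (H.pk δ) (1 / 200) L u w * D =
        (if 1 / 200 ≤ rho (H.pk δ) u w ∧ rho (H.pk δ) u w ≤ L then (H.cod u w : ℝ) else 0) := by
      intro u w
      unfold rhoT
      split_ifs
      · rw [H.rho_pk hδ, ← hn, ← hD]; field_simp
      · simp
    have hr2 : rhoT (H.pk δ) (1 / 200) L v y * H.pk δ y z * rhoT (H.pk δ) (1 / 200) L v z *
        (δ * D ^ 2) = (rhoT (H.pk δ) (1 / 200) L v y * D) *
          (rhoT (H.pk δ) (1 / 200) L v z * D) := by
      unfold LTS.pk; rw [hW]; field_simp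
    rw [hr2, hr, hr]
    by_cases h1 : 1 / 200 ≤ rho (H.pk δ) v y ∧ rho (H.pk δ) v y ≤ L
    swap
    · rw [if_neg h1]; simpa using hRHS
    by_cases h2 : 1 / 200 ≤ rho (H.pk δ) v z ∧ rho (H.pk δ) v z ≤ L
    swap
    · rw [if_neg h2]; simpa using hRHS
    rw [if_pos h1, if_pos h2]
    rw [H.rho_pk hδ, ← hn, ← hD, le_div_iff₀ hD0, div_le_iff₀ hD0] at h1 h2
    have hprod : (H.cod v y : ℝ) * H.cod v z ≤ (L * D) ^ 2 := by
      rw [sq]
      exact mul_le_mul h1.2 h2.2 (by positivity) (by positivity)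
    have hLD : 0 ≤ (L * D) ^ 2 := sq_nonneg _
    have hfinish : 1 ≤ (if v = y then H.W y z else 0) + (if v = z then H.W y z else 0) +
          H.T v y z → (H.cod v y : ℝ) * H.cod v z ≤
        (if H.GT v y z then (H.cod v y : ℝ) * H.cod v z else 0) +
        (L * D) ^ 2 * ((if v = y then H.W y z else 0) + (if v = z then H.W y z else 0) +
          H.T v y z) := by
      intro h
      have := mul_le_mul_of_nonneg_left h hLD
      linarith
    by_cases hvy : v = y
    · apply hfinish
      have : (if v = y then H.W y z else 0) = 1 := by rw [if_pos hvy, hW]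
      linarith
    by_cases hvz : v = z
    · apply hfinish
      have : (if v = z then H.W y z else 0) = 1 := by rw [if_pos hvz, hW]
      linarith
    by_cases hT' : ({v, y, z} : Finset V) ∈ H.edges
    · apply hfinish
      have : H.T v y z = 1 := if_pos hT'
      linarith
    have hGT : H.GT v y z := by
      refine ⟨hyz, ?_, hvy, hvz, ?_, ?_⟩
      · rintro ⟨e, he', hv, hy, hz⟩
        apply hT'
        have h5 : ({v, y, z} : Finset V) ⊆ e := by
          intro u hu
          simp only [Finset.mem_insert, Finset.mem_singleton] at hu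
          rcases hu with rfl | rfl | rfl <;> assumption
        have h6 : ({v, y, z} : Finset V).card = 3 :=
          Finset.card_eq_three.2 ⟨v, y, z, hvy, hvz, hyz.1, rfl⟩
        rw [Finset.eq_of_subset_of_card_le h5 (by rw [h6, H.card_eq e he'])]
        exact he'
      · have : (100 : ℝ) ≤ H.cod v y := by linarith [h1.1]
        exact_mod_cast this
      · have : (100 : ℝ) ≤ H.cod v z := by linarith [h2.1]
        exact_mod_cast this
    rw [if_pos hGT]
    have : 0 ≤ (L * D) ^ 2 * ((if v = y then H.W y z else 0) + (if v = z then H.W y z else 0) +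
          H.T v y z) := by positivity
    linarith
  have hsum := Finset.sum_le_sum (s := (univ : Finset V)) fun v _ =>
    Finset.sum_le_sum (s := (univ : Finset V)) fun y _ =>
      Finset.sum_le_sum (s := (univ : Finset V)) fun z _ => hterm v y z
  have hsum2 := hmain.trans hsum
  simp only [← Finset.sum_div, Finset.sum_add_distrib, ← Finset.mul_sum] at hsum2
  rw [le_div_iff₀ (by positivity)] at hsum2
  have e1 : ∑ v : V, ∑ y : V, ∑ z : V, (if v = y then H.W y z else 0) = 6 * H.edges.card := by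
    rw [← H.sum_W]
    apply Finset.sum_congr rfl; intro v _
    rw [Finset.sum_eq_single v]
    · simp
    · intro y _ hy; simp [Ne.symm hy]
    · simp
  have e2 : ∑ v : V, ∑ y : V, ∑ z : V, (if v = z then H.W y z else 0) = 6 * H.edges.card := by
    rw [← H.sum_W, Finset.sum_comm]
    apply Finset.sum_congr rfl; intro y _
    rw [Finset.sum_comm]
    apply Finset.sum_congr rfl; intro z _
    simp
  have e3 : ∑ v : V, ∑ y : V, ∑ z : V, H.T v y z = 6 * H.edges.card := by
    rw [← H.sum_W]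
    apply Finset.sum_congr rfl; intro v _
    apply Finset.sum_congr rfl; intro y _
    exact H.sum_T v y
  rw [e1, e2, e3, hm] at hsum2
  have hG := H.sum_GT hP
  have hcδ : c * n ^ 3 * (δ * D ^ 2) = c * (δ ^ 5 * n ^ 5) := by rw [hD]; ring
  have hLδ : (L * D) ^ 2 * (δ * n ^ 2 + δ * n ^ 2 + δ * n ^ 2) =
      3 * L ^ 2 * (δ ^ 5 * n ^ 4) := by rw [hD]; ring
  rw [hcδ, hLδ] at hsum2
  have hG2 : (4 : ℝ) * H.G5 ≤ 4 * C * δ * (δ ^ 5 * n ^ 5) := by
    have : 4 * C * δ * (δ ^ 5 * n ^ 5) = 4 * (C * δ ^ 6 * n ^ 5) := by ring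
    linarith
  have hnL : 3 * L ^ 2 * (δ ^ 5 * n ^ 4) ≤ c / 2 * (δ ^ 5 * n ^ 5) := by
    have h1 : 6 * L ^ 2 ≤ c * n := by
      have h2 : 6 * L ^ 2 / c ≤ n := by linarith
      rw [div_le_iff₀ hc] at h2
      linarith
    have h3 : c / 2 * (δ ^ 5 * n ^ 5) = (c * n) / 2 * (δ ^ 5 * n ^ 4) := by ring
    rw [h3]
    apply mul_le_mul_of_nonneg_right _ (by positivity)
    linarith
  have hfin : c * (δ ^ 5 * n ^ 5) ≤ 4 * C * δ * (δ ^ 5 * n ^ 5) + c / 2 * (δ ^ 5 * n ^ 5) := by
    linarith
  have hpos : 0 < δ ^ 5 * n ^ 5 := by positivity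
  have h4 : c ≤ 4 * C * δ + c / 2 := by
    have h5 : c * (δ ^ 5 * n ^ 5) ≤ (4 * C * δ + c / 2) * (δ ^ 5 * n ^ 5) := by linarith
    exact le_of_mul_le_mul_right h5 hpos
  have h6 : 4 * C * δ ≤ c / 4 := by
    calc 4 * C * δ ≤ 4 * C * (c / (16 * C)) := mul_le_mul_of_nonneg_left hδ2 (by positivity)
      _ = c / 4 := by field_simp; ring
  linarith

end Pool.Agent.Helper38K9.PT
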