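import Pool.Agent.Helper38K9.PT.Defs

/-!
Basic properties of the conditional average `av`.
-/

namespace Pool.Agent.Helper38K9.PT

open Finset

variable {V α β : Type*} [Fintype V] [DecidableEq α] [DecidableEq β]

/-- the cell of `x` -/
def cell (q : V → α) (x : V) : Finset V := univ.filter (fun y => q y = q x)

theorem av_eq (q : V → α) (f : V → ℝ) (x : V) :
    av q f x = (∑ y ∈ cell q x, f y) / (cell q x).card := rfl

theorem mem_cell {q : V → α} {x y : V} : y ∈ cell q x ↔ q y = q x := by
  simp [cell]

theorem self_mem_cell (q : V → α) (x : V) : x ∈ cell q x := mem_cell.2 rfl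

theorem cell_card_pos (q : V → α) (x : V) : 0 < (cell q x).card :=
  Finset.card_pos.2 ⟨x, self_mem_cell q x⟩

theorem cell_card_pos' (q : V → α) (x : V) : (0 : ℝ) < (cell q x).card := by
  exact_mod_cast cell_card_pos q x

theorem cell_congr {q : V → α} {x x' : V} (h : q x = q x') : cell q x = cell q x' := by
  ext y; simp [mem_cell, h]

theorem av_congr {q : V → α} (f : V → ℝ) {x x' : V} (h : q x = q x') :
    av q f x = av q f x' := by
  rw [av_eq, av_eq, cell_congr h]

/-- pull out a measurable factor -/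
theorem av_mul_left {q : V → α} {g : V → ℝ} (hg : ∀ x x', q x = q x' → g x = g x')
    (f : V → ℝ) (x : V) : av q (fun y => g y * f y) x = g x * av q f x := by
  rw [av_eq, av_eq, mul_div_assoc', Finset.mul_sum]
  congr 1
  apply Finset.sum_congr rfl
  intro y hy
  rw [hg y x (mem_cell.1 hy)]

theorem av_const (q : V → α) (c : ℝ) (x : V) : av q (fun _ => c) x = c := by
  rw [av_eq, Finset.sum_const, nsmul_eq_mul]
  have := cell_card_pos' q x
  field_simp

theorem av_of_meas {q : V → α} {g : V → ℝ} (hg : ∀ x x', q x = q x' → g x = g x') (x : V) :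
    av q g x = g x := by
  have := av_mul_left hg (fun _ => (1 : ℝ)) x
  simpa [av_const] using this

theorem av_av (q : V → α) (f : V → ℝ) (x : V) : av q (av q f) x = av q f x :=
  av_of_meas (fun _ _ h => av_congr f h) x

theorem av_add (q : V → α) (f g : V → ℝ) (x : V) :
    av q (fun y => f y + g y) x = av q f x + av q g x := by
  rw [av_eq, av_eq, av_eq, Finset.sum_add_distrib, add_div]

theorem av_sub (q : V → α) (f g : V → ℝ) (x : V) :
    av q (fun y => f y - g y) x = av q f x - av q g x := by
  rw [av_eq, av_eq, av_eq, Finset.sum_sub_distrib, sub_div]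

theorem av_smul (q : V → α) (c : ℝ) (f : V → ℝ) (x : V) :
    av q (fun y => c * f y) x = c * av q f x :=
  av_mul_left (fun _ _ _ => rfl) f x

theorem av_sum {ι : Type*} (s : Finset ι) (q : V → α) (f : ι → V → ℝ) (x : V) :
    av q (fun y => ∑ i ∈ s, f i y) x = ∑ i ∈ s, av q (f i) x := by
  simp only [av_eq]
  rw [Finset.sum_comm, Finset.sum_div]

theorem av_mono (q : V → α) {f g : V → ℝ} (h : ∀ y, f y ≤ g y) (x : V) :
    av q f x ≤ av q g x := by
  rw [av_eq, av_eq]
  exact div_le_div_of_nonneg_right (Finset.sum_le_sum fun y _ => h y) (cell_card_pos' q x).le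

theorem av_nonneg (q : V → α) {f : V → ℝ} (h : ∀ y, 0 ≤ f y) (x : V) : 0 ≤ av q f x := by
  have := av_mono q (f := fun _ => 0) h x
  rwa [av_const] at this

theorem av_le (q : V → α) {f : V → ℝ} {L : ℝ} (h : ∀ y, f y ≤ L) (x : V) : av q f x ≤ L := by
  have := av_mono q (g := fun _ => L) h x
  rwa [av_const] at this

theorem le_av (q : V → α) {f : V → ℝ} {L : ℝ} (h : ∀ y, L ≤ f y) (x : V) : L ≤ av q f x := by
  have := av_mono q (f := fun _ => L) h x
  rwa [av_const] at this

theorem abs_av_le (q : V → α) {f : V → ℝ} {L : ℝ} (h : ∀ y, |f y| ≤ L) (x : V) :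
    |av q f x| ≤ L :=
  abs_le.2 ⟨le_av q (fun y => (abs_le.1 (h y)).1) x, av_le q (fun y => (abs_le.1 (h y)).2) x⟩

theorem sum_av (q : V → α) (f : V → ℝ) : ∑ x, av q f x = ∑ x, f x := by
  have h1 : ∀ x, av q f x = ∑ y, (if q y = q x then f y / (cell q y).card else 0) := by
    intro x
    rw [av_eq, Finset.sum_div, cell, Finset.sum_filter]
    apply Finset.sum_congr rfl
    intro y _
    split_ifs with h
    · rw [show cell q y = univ.filter (fun y => q y = q x) from cell_congr h]
    · rfl
  simp only [h1]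
  rw [Finset.sum_comm]
  apply Finset.sum_congr rfl
  intro y _
  rw [← Finset.sum_filter, Finset.sum_const, nsmul_eq_mul]
  have h2 : univ.filter (fun x => q y = q x) = cell q y := by
    ext x; simp [mem_cell, eq_comm]
  rw [h2]
  have := cell_card_pos' q y
  field_simp

/-- averages against measurable functions -/
theorem sum_mul_av {q : V → α} {g : V → ℝ} (hg : ∀ x x', q x = q x' → g x = g x')
    (f : V → ℝ) : ∑ x, g x * av q f x = ∑ x, g x * f x := by
  rw [← sum_av q (fun x => g x * f x)]
  exact Finset.sum_congr rfl fun x _ => (av_mul_left hg f x).symm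

/-- `av` is self-adjoint -/
theorem sum_av_mul (q : V → α) (f g : V → ℝ) :
    ∑ x, av q f x * g x = ∑ x, f x * av q g x := by
  have h1 := sum_mul_av (q := q) (g := av q f) (fun _ _ h => av_congr f h) g
  have h2 := sum_mul_av (q := q) (g := av q g) (fun _ _ h => av_congr g h) f
  rw [← h1]
  simp only [mul_comm (f _)]
  rw [← h2]
  exact Finset.sum_congr rfl fun x _ => mul_comm _ _

/-- restricted sums over measurable sets -/
theorem sum_filter_av {q : V → α} (S : V → Prop) [DecidablePred S]
    (hS : ∀ x x', q x = q x' → (S x ↔ S x')) (f : V → ℝ) :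
    ∑ x ∈ univ.filter S, av q f x = ∑ x ∈ univ.filter S, f x := by
  have := sum_mul_av (q := q) (g := fun x => if S x then (1 : ℝ) else 0)
    (fun x x' h => by simp only [hS x x' h]) f
  simpa [Finset.sum_filter] using this

/-- tower property -/
theorem av_tower {q : V → α} {q' : V → β} (h : ∀ x x', q' x = q' x' → q x = q x')
    (f : V → ℝ) (x : V) : av q (av q' f) x = av q f x := by
  rw [av_eq, av_eq]
  congr 1
  exact sum_filter_av (q := q') (fun y => q y = q x) (fun y y' hy => by rw [h y y' hy]) f

theorem av_tower' {q : V → α} {q' : V → β} (h : ∀ x x', q' x = q' x' → q x = q x')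
    (f : V → ℝ) (x : V) : av q' (av q f) x = av q f x :=
  av_of_meas (fun _ _ hx => av_congr f (h _ _ hx)) x

/-- Pythagoras -/
theorem sum_sq_av_refine {q : V → α} {q' : V → β} (h : ∀ x x', q' x = q' x' → q x = q x')
    (f : V → ℝ) : ∑ x, av q' f x ^ 2 = ∑ x, av q f x ^ 2 + ∑ x, (av q' f x - av q f x) ^ 2 := by
  have h1 : ∑ x, av q f x * (av q' f x - av q f x) = 0 := by
    have h2 := sum_mul_av (q := q) (g := av q f) (fun _ _ h => av_congr f h) (av q' f)
    have h3 : ∀ x, av q (av q' f) x = av q f x := av_tower h f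
    simp only [h3] at h2
    simp only [mul_sub, Finset.sum_sub_distrib]
    linarith
  have h4 : ∀ x, av q' f x ^ 2 = av q f x ^ 2 + (av q' f x - av q f x) ^ 2 +
      2 * (av q f x * (av q' f x - av q f x)) := fun x => by ring
  simp only [h4, Finset.sum_add_distrib, ← Finset.mul_sum, h1]
  ring

theorem sum_sq_av_le (q : V → α) (f : V → ℝ) : ∑ x, av q f x ^ 2 ≤ ∑ x, f x ^ 2 := by
  have h1 : ∑ x, av q f x * (f x - av q f x) = 0 := by
    have h2 := sum_mul_av (q := q) (g := av q f) (fun _ _ h => av_congr f h) f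
    simp only [mul_sub, Finset.sum_sub_distrib]
    linarith
  have h4 : ∀ x, f x ^ 2 = av q f x ^ 2 + (f x - av q f x) ^ 2 +
      2 * (av q f x * (f x - av q f x)) := fun x => by ring
  have h5 : 0 ≤ ∑ x, (f x - av q f x) ^ 2 := Finset.sum_nonneg fun x _ => sq_nonneg _
  simp only [h4, Finset.sum_add_distrib, ← Finset.mul_sum, h1]
  linarith

end Pool.Agent.Helper38K9.PT
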