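import Pool.Agent.Helper38K9.PT.Reg

/-!
The energy increment argument.
-/

namespace Pool.Agent.Helper38K9.PT

open Finset

/-- the data `Λ` used in the main lemma -/
structure LamData {V : Type*} [Fintype V] (p : V → V → ℝ) (K : ℝ) (Λ : V → V → V → ℝ) :
    Prop where
  nonneg : ∀ v y z, 0 ≤ Λ v y z
  left : ∀ v y, ∑ z, Λ v y z ≤ Fintype.card V * rho p v y
  right : ∀ v z, ∑ y, Λ v y z ≤ Fintype.card V * rho p v z
  edge : ∀ y z, ∑ v, Λ v y z ≤ K * Fintype.card V * p y z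
  total : (Fintype.card V : ℝ) ^ 3 / 4 ≤ ∑ v, ∑ y, ∑ z, Λ v y z

theorem rhoT_nonneg {V : Type*} [Fintype V] {p : V → V → ℝ} (h : ∀ x y, 0 ≤ p x y) (η L : ℝ)
    (v y : V) : 0 ≤ rhoT p η L v y := by
  unfold rhoT; split_ifs
  · exact rho_nonneg h v y
  · exact le_rfl

theorem rhoT_le {V : Type*} [Fintype V] {p : V → V → ℝ} (η : ℝ) {L : ℝ} (hL : 0 ≤ L)
    (v y : V) : rhoT p η L v y ≤ L := by
  unfold rhoT; split_ifs with h
  · exact h.2
  · exact hL

theorem rhoT_le_rho {V : Type*} [Fintype V] {p : V → V → ℝ} (h : ∀ x y, 0 ≤ p x y) (η L : ℝ)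
    (v y : V) : rhoT p η L v y ≤ rho p v y := by
  unfold rhoT; split_ifs
  · exact le_rfl
  · exact rho_nonneg h v y

theorem mass_diff {V : Type*} [Fintype V] {p : V → V → ℝ} (h : ∀ x y, 0 ≤ p x y)
    {L R Lmax : ℝ} (hL : 1 ≤ L) (hLmax : L ≤ Lmax) (hT : Tail p R Lmax)
    (hR : R / Real.sqrt L ≤ 1 / 200) :
    ∑ v, ∑ y, (rho p v y - rhoT p (1 / 200) L v y) ≤ (1 / 100) * (Fintype.card V : ℝ) ^ 2 := by
  have h1 : ∀ v y, rho p v y - rhoT p (1 / 200) L v y ≤
      1 / 200 + (if L < rho p v y then rho p v y else 0) := by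
    intro v y
    have h0 := rho_nonneg h v y
    unfold rhoT
    split_ifs with h1 h2 h2
    · linarith [h1.2]
    · linarith
    · linarith
    · rw [not_and_or, not_le] at h1
      rcases h1 with h1 | h1
      · linarith
      · exact absurd (not_lt.1 h2) h1
  calc ∑ v, ∑ y, (rho p v y - rhoT p (1 / 200) L v y)
      ≤ ∑ v : V, ∑ y : V, (1 / 200 + (if L < rho p v y then rho p v y else 0)) :=
        Finset.sum_le_sum fun v _ => Finset.sum_le_sum fun y _ => h1 v y
    _ = (1 / 200) * (Fintype.card V : ℝ) ^ 2 +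
        ∑ v, ∑ y, (if L < rho p v y then rho p v y else 0) := by
        simp only [Finset.sum_add_distrib, Finset.sum_const, nsmul_eq_mul, Finset.card_univ]
        ring
    _ ≤ (1 / 200) * (Fintype.card V : ℝ) ^ 2 + (R / Real.sqrt L) * (Fintype.card V : ℝ) ^ 2 := by
        have := hT L hL hLmax
        linarith
    _ ≤ _ := by
        have : (R / Real.sqrt L) * (Fintype.card V : ℝ) ^ 2 ≤
          (1 / 200) * (Fintype.card V : ℝ) ^ 2 :=
          mul_le_mul_of_nonneg_right hR (by positivity)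
        linarith

theorem Tail.mono {V : Type*} [Fintype V] {p : V → V → ℝ} {R L L' : ℝ} (h : Tail p R L')
    (hL : L ≤ L') : Tail p R L := fun l h1 h2 => h l h1 (h2.trans hL)

/-- passing from the averaged form to the form itself -/
theorem form_close {V : Type} [Fintype V] [Nonempty V] {B : ℕ} {p : V → V → ℝ}
    (hs : ∀ x y, p x y = p y x) {q : V → Fin B} {ζ L : ℝ} (hζ : 0 ≤ ζ) (hL : 0 < L)
    (hq : ∀ f : V → ℝ, (∀ x, |f x| ≤ 1) →
      ∑ x, (∑ y, p x y * (f y - av q f y)) ^ 2 ≤ ζ ^ 2 * (Fintype.card V : ℝ) ^ 3)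
    {g : V → ℝ} (hg0 : ∀ x, 0 ≤ g x) (hg : ∀ x, g x ≤ L) :
    ∑ y, ∑ z, av q g y * p y z * av q g z - 2 * L ^ 2 * ζ * (Fintype.card V : ℝ) ^ 2 ≤
      ∑ y, ∑ z, g y * p y z * g z := by
  set n : ℝ := (Fintype.card V : ℝ) with hn
  have hn0 : 0 ≤ n := by positivity
  -- the function `P h`
  set u : V → ℝ := fun x => ∑ y, p x y * (g y - av q g y) with hu
  have hu2 : ∑ x, u x ^ 2 ≤ L ^ 2 * ζ ^ 2 * n ^ 3 := by
    have h1 := hq (fun x => g x / L) (fun x => by
      rw [abs_of_nonneg (div_nonneg (hg0 x) hL.le), div_le_one hL]; exact hg x)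
    have h2 : ∀ y, g y / L - av q (fun x => g x / L) y = (1 / L) * (g y - av q g y) := by
      intro y
      have : av q (fun x => g x / L) y = (1 / L) * av q g y := by
        rw [← av_smul]
        congr 1
        ext x; ring
      rw [this]; ring
    simp only [h2] at h1
    have h3 : ∀ x, ∑ y, p x y * ((1 / L) * (g y - av q g y)) = (1 / L) * u x := by
      intro x
      rw [hu, Finset.mul_sum]
      exact Finset.sum_congr rfl fun y _ => by ring
    simp only [h3, mul_pow, ← Finset.mul_sum] at h1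
    have hL2 : 0 < L ^ 2 := by positivity
    have h4 : ∑ x, u x ^ 2 = L ^ 2 * ((1 / L) ^ 2 * ∑ x, u x ^ 2) := by
      field_simp
    rw [h4, mul_assoc]
    exact mul_le_mul_of_nonneg_left h1 hL2.le
  have hCS : ∀ f : V → ℝ, (∀ x, |f x| ≤ L) → |∑ x, f x * u x| ≤ L ^ 2 * ζ * n ^ 2 := by
    intro f hf
    apply abs_le_of_sq_le_sq _ (by positivity)
    calc (∑ x, f x * u x) ^ 2 ≤ (∑ x, f x ^ 2) * ∑ x, u x ^ 2 :=
          Finset.sum_mul_sq_le_sq_mul_sq _ _ _
      _ ≤ (n * L ^ 2) * (L ^ 2 * ζ ^ 2 * n ^ 3) := by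
          apply mul_le_mul _ hu2 (Finset.sum_nonneg fun x _ => sq_nonneg _) (by positivity)
          calc ∑ x, f x ^ 2 ≤ ∑ x : V, L ^ 2 := by
                apply Finset.sum_le_sum
                intro x _
                exact sq_le_sq' (by linarith [(abs_le.1 (hf x)).1]) (abs_le.1 (hf x)).2
            _ = n * L ^ 2 := by
                rw [Finset.sum_const, nsmul_eq_mul, Finset.card_univ]
      _ = (L ^ 2 * ζ * n ^ 2) ^ 2 := by ring
  have hdec : ∑ y, ∑ z, g y * p y z * g z - ∑ y, ∑ z, av q g y * p y z * av q g z =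
      ∑ y, g y * u y + ∑ z, av q g z * u z := by
    have h1 : ∑ y, g y * u y = ∑ y, ∑ z, g y * p y z * (g z - av q g z) := by
      apply Finset.sum_congr rfl
      intro y _
      rw [hu, Finset.mul_sum]
      exact Finset.sum_congr rfl fun z _ => by ring
    have h2 : ∑ z, av q g z * u z = ∑ y, ∑ z, (g y - av q g y) * p y z * av q g z := by
      rw [Finset.sum_comm]
      apply Finset.sum_congr rfl
      intro z _
      rw [hu, Finset.mul_sum]
      exact Finset.sum_congr rfl fun y _ => by rw [hs z y]; ring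
    rw [h1, h2, ← Finset.sum_sub_distrib, ← Finset.sum_add_distrib]
    apply Finset.sum_congr rfl
    intro y _
    rw [← Finset.sum_sub_distrib, ← Finset.sum_add_distrib]
    exact Finset.sum_congr rfl fun z _ => by ring
  have h5 := hCS g (fun x => by rw [abs_of_nonneg (hg0 x)]; exact hg x)
  have h6 := hCS (av q g) (fun x => by
    rw [abs_of_nonneg (av_nonneg q hg0 x)]; exact av_le q hg x)
  have h7 := (abs_le.1 h5).1
  have h8 := (abs_le.1 h6).1
  linarith

theorem chain (hFK : S_FK) (hJ : S_J) (R K L : ℝ) (hK : 0 < K) (hL : 1 ≤ L)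
    (hRL : R / Real.sqrt L ≤ 1 / 200) (k : ℕ) :
    ∃ (B : ℕ) (Lmax c : ℝ), L ≤ Lmax ∧ 0 < c ∧
    ∀ (V : Type) [Fintype V] [Nonempty V] (p : V → V → ℝ) (Λ : V → V → V → ℝ),
      (∀ x y, p x y = p y x) → (∀ x y, 0 ≤ p x y) → LamData p K Λ → Tail p R Lmax →
      (∃ q : V → Fin B, (k : ℝ) * (1 / 2560000) * (Fintype.card V : ℝ) ^ 2 ≤
        ∑ v, ∑ y, (av q (rhoT p (1 / 200) L v) y) ^ 2) ∨
      c * (Fintype.card V : ℝ) ^ 3 ≤
        ∑ v, ∑ y, ∑ z, rhoT p (1 / 200) L v y * p y z * rhoT p (1 / 200) L v z := by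
  have hL0 : 0 < L := by linarith
  induction k with
  | zero =>
    refine ⟨1, L, 1, le_rfl, one_pos, ?_⟩
    intro V _ _ p Λ _ _ _ _
    left
    refine ⟨fun _ => 0, ?_⟩
    have : 0 ≤ ∑ v, ∑ y, (av (fun _ : V => (0 : Fin 1)) (rhoT p (1 / 200) L v) y) ^ 2 :=
      Finset.sum_nonneg fun v _ => Finset.sum_nonneg fun y _ => sq_nonneg _
    simpa using this
  | succ k ih =>
    obtain ⟨B, Lmax, c, hLm, hc, ih⟩ := ih
    set M : ℕ := ⌊1600 * L⌋₊ + 1 with hM
    set N : ℕ := Fintype.card (Fin B → Fin M) with hN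
    have hM0 : 0 < M := Nat.succ_pos _
    have : Nonempty (Fin M) := ⟨⟨0, hM0⟩⟩
    have hN0 : 0 < N := Fintype.card_pos
    have hN0' : (0 : ℝ) < N := by exact_mod_cast hN0
    set c1 : ℝ := 1 / (96 * 1000000 * L * K * N) with hc1
    have hc10 : 0 < c1 := by positivity
    set ζ : ℝ := c1 / (4 * L ^ 2) with hζ
    have hζ0 : 0 < ζ := by positivity
    obtain ⟨B', Lmax', hLm', hreg⟩ := reg hFK B R (ζ ^ 2) (by positivity)
    refine ⟨B', max Lmax Lmax', min c (c1 / 2), le_max_of_le_left hLm, lt_min hc (by positivity), ?_⟩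
    intro V _ _ p Λ hs hp hΛ hT
    set n : ℝ := (Fintype.card V : ℝ) with hn
    have hn1 : 0 < n := by
      have := Fintype.card_pos (α := V); positivity
    set ρ' := rhoT p (1 / 200) L with hρ'
    have hρ0 : ∀ v y, 0 ≤ ρ' v y := rhoT_nonneg hp _ _
    have hρL : ∀ v y, ρ' v y ≤ L := rhoT_le _ hL0.le
    rcases ih V p Λ hs hp hΛ (hT.mono (le_max_left _ _)) with ⟨q, hq⟩ | hdone
    swap
    · right
      refine le_trans ?_ hdone
      exact mul_le_mul_of_nonneg_right (min_le_left _ _) (by positivity)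
    obtain ⟨q', ⟨r, hr⟩, hq'⟩ := hreg V p hs hp (hT.mono (le_max_right _ _)) q
    have href : ∀ x x', q' x = q' x' → q x = q x' := fun x x' h => by rw [hr, hr, h]
    by_cases hen : ((k + 1 : ℕ) : ℝ) * (1 / 2560000) * n ^ 2 ≤ ∑ v, ∑ y, (av q' (ρ' v) y) ^ 2
    · left
      exact ⟨q', hen⟩
    right
    rw [not_le] at hen
    -- the `L²` distance
    have hdist : ∑ v, ∑ y, (av q' (ρ' v) y - av q (ρ' v) y) ^ 2 ≤ (1 / 2560000) * n ^ 2 := by
      have h1 : ∑ v, ∑ y, (av q' (ρ' v) y) ^ 2 = ∑ v, ∑ y, (av q (ρ' v) y) ^ 2 +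
          ∑ v, ∑ y, (av q' (ρ' v) y - av q (ρ' v) y) ^ 2 := by
        rw [← Finset.sum_add_distrib]
        exact Finset.sum_congr rfl fun v _ => sum_sq_av_refine href (ρ' v)
      push_cast at hen
      nlinarith
    have hdist1 : ∑ v, ∑ y, |av q' (ρ' v) y - av q (ρ' v) y| ≤ (1 / 1600) * n ^ 2 := by
      have h2 : ∑ v, ∑ y, |av q' (ρ' v) y - av q (ρ' v) y| =
          ∑ t : V × V, |av q' (ρ' t.1) t.2 - av q (ρ' t.1) t.2| := by
        rw [Fintype.sum_prod_type]
      have h3 : ∑ v, ∑ y, (av q' (ρ' v) y - av q (ρ' v) y) ^ 2 =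
          ∑ t : V × V, |av q' (ρ' t.1) t.2 - av q (ρ' t.1) t.2| ^ 2 := by
        rw [Fintype.sum_prod_type]
        simp only [sq_abs]
      rw [h2]
      rw [h3] at hdist
      have h4 := sq_sum_le_card_mul_sum_sq (s := (univ : Finset (V × V)))
        (f := fun t => |av q' (ρ' t.1) t.2 - av q (ρ' t.1) t.2|)
      have h5 : ((univ : Finset (V × V)).card : ℝ) = n ^ 2 := by
        rw [Finset.card_univ, Fintype.card_prod]; push_cast; ring
      rw [h5] at h4
      apply le_of_sq_le_sq _ (by positivity)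
      calc _ ≤ n ^ 2 * ∑ t : V × V, |av q' (ρ' t.1) t.2 - av q (ρ' t.1) t.2| ^ 2 := h4
        _ ≤ n ^ 2 * ((1 / 2560000) * n ^ 2) := mul_le_mul_of_nonneg_left hdist (by positivity)
        _ = ((1 / 1600) * n ^ 2) ^ 2 := by ring
    -- the level sets
    set cl : V → Fin B → ℕ := fun v Y =>
      ⌊1600 * ((∑ y ∈ univ.filter (fun y => q y = Y), ρ' v y) /
        (univ.filter (fun y => q y = Y)).card)⌋₊ with hcl
    have hclL : ∀ v Y, cl v Y < M := by
      intro v Y
      rw [hcl, hM, Nat.lt_succ_iff]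
      apply Nat.floor_le_floor
      apply mul_le_mul_of_nonneg_left _ (by norm_num)
      rcases Nat.eq_zero_or_pos (univ.filter (fun y => q y = Y)).card with h0 | h0
      · rw [h0]; simp; exact hL0.le
      · have h0' : (0 : ℝ) < (univ.filter (fun y => q y = Y)).card := by exact_mod_cast h0
        rw [div_le_iff₀ h0']
        calc ∑ y ∈ univ.filter (fun y => q y = Y), ρ' v y
            ≤ ∑ y ∈ univ.filter (fun y => q y = Y), L := Finset.sum_le_sum fun y _ => hρL v y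
          _ = L * (univ.filter (fun y => q y = Y)).card := by
              rw [Finset.sum_const, nsmul_eq_mul, mul_comm]
    set e : (Fin B → Fin M) ≃ Fin N := Fintype.equivFin _ with he
    set q0 : V → Fin N := fun v => e (fun Y => ⟨cl v Y, hclL v Y⟩) with hq0
    set ρb : V → V → ℝ := fun v y => (⌊1600 * av q (ρ' v) y⌋₊ : ℝ) / 1600 with hρb
    have hcl' : ∀ v y, cl v (q y) = ⌊1600 * av q (ρ' v) y⌋₊ := fun v y => rfl
    have hb0 : ∀ v v' y, q0 v = q0 v' → ρb v y = ρb v' y := by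
      intro v v' y h
      have h1 : (fun Y => (⟨cl v Y, hclL v Y⟩ : Fin M)) = fun Y => ⟨cl v' Y, hclL v' Y⟩ :=
        e.injective h
      have h2 := congrFun h1 (q y)
      have h3 : cl v (q y) = cl v' (q y) := by simpa using h2
      rw [hcl', hcl'] at h3
      simp only [hρb, h3]
    have hb1 : ∀ v y y', q' y = q' y' → ρb v y = ρb v y' := by
      intro v y y' h
      simp only [hρb, av_congr (ρ' v) (href y y' h)]
    have hb2 : ∀ v y, |av q (ρ' v) y - ρb v y| ≤ 1 / 1600 := by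
      intro v y
      have h0 : 0 ≤ 1600 * av q (ρ' v) y := mul_nonneg (by norm_num) (av_nonneg q (hρ0 v) y)
      have h1 := Nat.floor_le h0
      have h2 := Nat.lt_floor_add_one (1600 * av q (ρ' v) y)
      simp only [hρb]
      rw [abs_le]
      constructor <;> linarith
    have hclose : ∑ v, ∑ y, |av q' (ρ' v) y - ρb v y| ≤ (1 / 800) * n ^ 2 := by
      calc ∑ v, ∑ y, |av q' (ρ' v) y - ρb v y|
          ≤ ∑ v, ∑ y, (|av q' (ρ' v) y - av q (ρ' v) y| + 1 / 1600) := by
            apply Finset.sum_le_sum; intro v _; apply Finset.sum_le_sum; intro y _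
            calc |av q' (ρ' v) y - ρb v y| =
                |(av q' (ρ' v) y - av q (ρ' v) y) + (av q (ρ' v) y - ρb v y)| := by ring_nf
              _ ≤ |av q' (ρ' v) y - av q (ρ' v) y| + |av q (ρ' v) y - ρb v y| := abs_add_le _ _
              _ ≤ _ := by linarith [hb2 v y]
        _ = ∑ v, ∑ y, |av q' (ρ' v) y - av q (ρ' v) y| + (1 / 1600) * n ^ 2 := by
            simp only [Finset.sum_add_distrib, Finset.sum_const, nsmul_eq_mul, Finset.card_univ]
            ring
        _ ≤ (1 / 800) * n ^ 2 := by linarith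
    have hJ1 := hJ L K N B' hL hK V p ρ' ρb Λ q0 q' hp hρ0 hρL (rhoT_le_rho hp _ _)
      (mass_diff hp hL (hLm.trans (le_max_left _ _)) hT hRL)
      hΛ.nonneg hΛ.left hΛ.right hΛ.edge hΛ.total hb0 hb1 hclose
    have hfc : ∀ v, ∑ y, ∑ z, av q' (ρ' v) y * p y z * av q' (ρ' v) z -
        2 * L ^ 2 * ζ * n ^ 2 ≤ ∑ y, ∑ z, ρ' v y * p y z * ρ' v z :=
      fun v => form_close hs hζ0.le hL0 hq' (hρ0 v) (hρL v)
    have hfin := Finset.sum_le_sum (s := (univ : Finset V)) fun v _ => hfc v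
    rw [Finset.sum_sub_distrib, Finset.sum_const, nsmul_eq_mul, Finset.card_univ] at hfin
    have h9 : (Fintype.card V : ℝ) ^ 3 / (96 * 1000000 * L * K * N) = c1 * n ^ 3 := by
      rw [hc1]; ring
    rw [h9] at hJ1
    have h10 : 2 * L ^ 2 * ζ = c1 / 2 := by
      rw [hζ]; field_simp; ring
    have h11 : min c (c1 / 2) * n ^ 3 ≤ (c1 / 2) * n ^ 3 :=
      mul_le_mul_of_nonneg_right (min_le_right _ _) (by positivity)
    rw [h10] at hfin
    nlinarith

/-- the analytic theorem -/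
theorem analytic (hFK : S_FK) (hJ : S_J) (R K : ℝ) (hK : 0 < K) :
    ∃ (L Lmax c : ℝ), 1 ≤ L ∧ L ≤ Lmax ∧ 0 < c ∧
    ∀ (V : Type) [Fintype V] [Nonempty V] (p : V → V → ℝ) (Λ : V → V → V → ℝ),
      (∀ x y, p x y = p y x) → (∀ x y, 0 ≤ p x y) → LamData p K Λ → Tail p R Lmax →
      c * (Fintype.card V : ℝ) ^ 3 ≤
        ∑ v, ∑ y, ∑ z, rhoT p (1 / 200) L v y * p y z * rhoT p (1 / 200) L v z := by
  set L : ℝ := max 1 ((200 * R) ^ 2) with hL
  have hL1 : 1 ≤ L := le_max_left _ _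
  have hsq : 0 < Real.sqrt L := Real.sqrt_pos.2 (by linarith)
  have hRL : R / Real.sqrt L ≤ 1 / 200 := by
    rw [div_le_iff₀ hsq]
    have : 200 * R ≤ Real.sqrt L := Real.le_sqrt_of_sq_le (le_max_right _ _)
    linarith
  obtain ⟨k, hk⟩ := exists_nat_gt (L ^ 2 * 2560000)
  obtain ⟨B, Lmax, c, hLm, hc, h⟩ := chain hFK hJ R K L hK hL1 hRL k
  refine ⟨L, Lmax, c, hL1, hLm, hc, ?_⟩
  intro V _ _ p Λ hs hp hΛ hT
  rcases h V p Λ hs hp hΛ hT with ⟨q, hq⟩ | h
  · exfalso
    set n : ℝ := (Fintype.card V : ℝ) with hn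
    have hn1 : 0 < n := by
      have := Fintype.card_pos (α := V); positivity
    have h1 : ∑ v, ∑ y, (av q (rhoT p (1 / 200) L v) y) ^ 2 ≤ L ^ 2 * n ^ 2 := by
      calc _ ≤ ∑ v : V, ∑ y : V, L ^ 2 := by
            apply Finset.sum_le_sum; intro v _; apply Finset.sum_le_sum; intro y _
            have h2 := av_nonneg q (rhoT_nonneg hp (1 / 200) L v) y
            have h3 := av_le q (rhoT_le (p := p) (1 / 200) (by linarith : (0 : ℝ) ≤ L) v) y
            exact pow_le_pow_left₀ h2 h3 2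
        _ = _ := by
            simp only [Finset.sum_const, nsmul_eq_mul, Finset.card_univ]; ring
    have h4 : (k : ℝ) * (1 / 2560000) ≤ L ^ 2 := by
      have h5 : (k : ℝ) * (1 / 2560000) * n ^ 2 ≤ L ^ 2 * n ^ 2 := hq.trans h1
      exact le_of_mul_le_mul_right h5 (by positivity)
    linarith
  · exact h

end Pool.Agent.Helper38K9.PT
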