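import Mathlib

/-!
Definitions for pentagon counts in linear triple systems (MP_86e34a_co).
-/

namespace Pool.Agent.Helper38K9.PT

open Finset

/-- A linear triple system (linear 3-graph) on the vertex set `V`: a finite set of 3-element
subsets of `V`, any two distinct ones having at most one common vertex. -/
structure LTS (V : Type*) [DecidableEq V] where
  /-- the edges -/
  edges : Finset (Finset V)
  card_eq : ∀ e ∈ edges, e.card = 3
  linear : ∀ e ∈ edges, ∀ f ∈ edges, e ≠ f → (e ∩ f).card ≤ 1

/-- `P` is (the edge set of) a pentagon, i.e. a linear (loose) cycle `C₅`: there are ten distinct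
vertices `v 0, …, v 4, w 0, …, w 4` such that `P` consists of the five sets
`{v i, v (i+1), w i}` (indices mod 5). -/
def IsPentagon {V : Type*} [DecidableEq V] (P : Finset (Finset V)) : Prop :=
  ∃ v w : ZMod 5 → V, Function.Injective (Sum.elim v w) ∧
    P = Finset.univ.image (fun i : ZMod 5 => ({v i, v (i + 1), w i} : Finset V))

open Classical in
/-- The number of copies of the pentagon `C₅` in the linear triple system `H`: the number of
sets of edges of `H` which form a `C₅`. -/
noncomputable def LTS.pentagons {V : Type*} [DecidableEq V] (H : LTS V) : ℕ :=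
  (H.edges.powerset.filter IsPentagon).card

/-- adjacency in the shadow graph -/
def LTS.Adj {V : Type*} [DecidableEq V] (H : LTS V) (x y : V) : Prop :=
  x ≠ y ∧ ∃ e ∈ H.edges, x ∈ e ∧ y ∈ e

instance {V : Type*} [DecidableEq V] (H : LTS V) : DecidableRel H.Adj := fun x y => by
  unfold LTS.Adj; infer_instance

/-- codegree in the shadow graph -/
def LTS.cod {V : Type*} [DecidableEq V] [Fintype V] (H : LTS V) (x y : V) : ℕ :=
  (univ.filter fun b => H.Adj x b ∧ H.Adj b y).card

/-- `(v, b, y, z, b')` is the cyclic vertex sequence of a pentagon of `H` -/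
def LTS.Pent {V : Type*} [DecidableEq V] (H : LTS V) (v b y z b' : V) : Prop :=
  ∃ w1 w2 w3 w4 w5 : V,
    ({v, b, w1} : Finset V) ∈ H.edges ∧ ({b, y, w2} : Finset V) ∈ H.edges ∧
    ({y, z, w3} : Finset V) ∈ H.edges ∧ ({z, b', w4} : Finset V) ∈ H.edges ∧
    ({b', v, w5} : Finset V) ∈ H.edges ∧
    [v, b, y, z, b', w1, w2, w3, w4, w5].Nodup

/-- conditional average of `f` over the cells (fibres) of `q` -/
noncomputable def av {V α : Type*} [Fintype V] [DecidableEq α] (q : V → α) (f : V → ℝ) (x : V) :
    ℝ :=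
  (∑ y ∈ univ.filter (fun y => q y = q x), f y) / (univ.filter (fun y => q y = q x)).card

/-- the kernel of `P²`, `(P f)(x) = (1/n) ∑ p x y f y` -/
noncomputable def rho {V : Type*} [Fintype V] (p : V → V → ℝ) (v y : V) : ℝ :=
  (∑ b, p v b * p b y) / Fintype.card V

/-- tail bound for `rho p` at the levels `1 ≤ L ≤ Lmax` -/
def Tail {V : Type*} [Fintype V] (p : V → V → ℝ) (R Lmax : ℝ) : Prop :=
  ∀ L, 1 ≤ L → L ≤ Lmax →
    ∑ v, ∑ y, (if L < rho p v y then rho p v y else 0) ≤
      (R / Real.sqrt L) * (Fintype.card V : ℝ) ^ 2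

/-- `rho` truncated to the values in `[η, L]` -/
noncomputable def rhoT {V : Type*} [Fintype V] (p : V → V → ℝ) (η L : ℝ) (v y : V) : ℝ :=
  if η ≤ rho p v y ∧ rho p v y ≤ L then rho p v y else 0

end Pool.Agent.Helper38K9.PT
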