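import Pool.Agent.Helper38K9.PT.Leaves

/-!
Leaf [FK]: weak regularity lemma for bounded kernels.
-/

set_option autoImplicit false
set_option linter.unusedSectionVars false

namespace Pool.Agent.Helper38K9.PT

open Finset

namespace FKL

variable {V : Type} [Fintype V] {α β : Type} [DecidableEq α] [DecidableEq β]

/-- cell -/
def cell (q : V → α) (x : V) : Finset V := univ.filter fun y => q y = q x

lemma av_def (q : V → α) (f : V → ℝ) (x : V) :
    av q f x = (∑ y, if q y = q x then f y else 0) / (cell q x).card := by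
  unfold av cell
  rw [sum_filter]

lemma cell_pos (q : V → α) (x : V) : (0 : ℝ) < (cell q x).card := by
  have : 0 < (cell q x).card := card_pos.2 ⟨x, by simp [cell]⟩
  exact_mod_cast this

lemma cell_congr {q : V → α} {x y : V} (h : q x = q y) : cell q x = cell q y := by
  unfold cell
  rw [h]

lemma av_congr_cell {q : V → α} {x y : V} (h : q x = q y) (f : V → ℝ) : av q f x = av q f y := by
  rw [av_def, av_def, cell_congr h, h]

lemma av_sum (q : V → α) {ι : Type} (s : Finset ι) (c : ι → ℝ) (f : ι → V → ℝ) (x : V) :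
    av q (fun y => ∑ i ∈ s, c i * f i y) x = ∑ i ∈ s, c i * av q (f i) x := by
  rw [av_def]
  have h1 : ∀ y, (if q y = q x then ∑ i ∈ s, c i * f i y else 0) =
      ∑ i ∈ s, c i * (if q y = q x then f i y else 0) := by
    intro y
    split_ifs <;> simp
  rw [sum_congr rfl fun y _ => h1 y, sum_comm, sum_div]
  refine sum_congr rfl fun i _ => ?_
  rw [av_def, ← mul_sum, mul_div_assoc]

lemma av_mul_meas (q : V → α) (f w : V → ℝ) (hw : ∀ x y, q x = q y → w x = w y) (x : V) :
    av q (fun y => f y * w y) x = av q f x * w x := by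
  rw [av_def, av_def, div_mul_eq_mul_div, sum_mul]
  congr 1
  refine sum_congr rfl fun y _ => ?_
  split_ifs with h
  · rw [hw y x h]
  · ring

lemma av_one (q : V → α) (x : V) : av q (fun _ => 1) x = 1 := by
  unfold av
  rw [sum_const, nsmul_eq_mul, mul_one]
  exact div_self (cell_pos q x).ne'

lemma av_meas (q : V → α) (w : V → ℝ) (hw : ∀ x y, q x = q y → w x = w y) (x : V) :
    av q w x = w x := by
  have h := av_mul_meas q (fun _ => 1) w hw x
  rw [av_one, one_mul] at h
  rw [← h]
  congr 1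
  funext y
  rw [one_mul]

lemma abs_av_le (q : V → α) {f : V → ℝ} {M : ℝ} (hf : ∀ x, |f x| ≤ M) (x : V) :
    |av q f x| ≤ M := by
  change |(∑ y ∈ cell q x, f y) / (cell q x).card| ≤ M
  rw [abs_div, abs_of_pos (cell_pos q x), div_le_iff₀ (cell_pos q x)]
  refine (abs_sum_le_sum_abs _ _).trans ((sum_le_sum fun y _ => hf y).trans (le_of_eq ?_))
  rw [sum_const, nsmul_eq_mul, mul_comm]

lemma av_symm (q : V → α) (u w : V → ℝ) : ∑ x, av q u x * w x = ∑ x, u x * av q w x := by
  have h1 : ∀ x, av q u x * w x =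
      ∑ y, if q y = q x then u y * w x / (cell q x).card else 0 := by
    intro x
    rw [av_def, div_mul_eq_mul_div, sum_mul, sum_div]
    refine sum_congr rfl fun y _ => ?_
    split_ifs <;> simp
  have h2 : ∀ x, u x * av q w x =
      ∑ y, if q y = q x then u x * w y / (cell q x).card else 0 := by
    intro x
    rw [av_def, ← mul_div_assoc, mul_sum, sum_div]
    refine sum_congr rfl fun y _ => ?_
    split_ifs <;> simp
  rw [sum_congr rfl fun x _ => h1 x, sum_congr rfl fun x _ => h2 x, sum_comm]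
  refine sum_congr rfl fun y _ => sum_congr rfl fun x _ => ?_
  by_cases h : q y = q x
  · rw [if_pos h, if_pos h.symm, cell_congr h]
  · rw [if_neg h, if_neg fun h' => h h'.symm]

lemma av_meas' (q : V → α) (f : V → ℝ) : ∀ x y, q x = q y → av q f x = av q f y :=
  fun _ _ h => av_congr_cell h f

/-- Pythagoras -/
lemma pyth (q : V → α) (q' : V → β) (hr : ∀ x y, q' x = q' y → q x = q y) (u : V → ℝ) :
    ∑ y, av q' u y ^ 2 = ∑ y, av q u y ^ 2 + ∑ y, (av q' u y - av q u y) ^ 2 := by
  have h1 : ∑ y, av q' u y * av q u y = ∑ y, av q u y ^ 2 := by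
    rw [av_symm q' u (av q u)]
    have h2 : ∀ y, u y * av q' (av q u) y = u y * av q u y := fun y => by
      rw [av_meas q' (av q u) (fun x z h => av_congr_cell (hr x z h) u)]
    rw [sum_congr rfl fun y _ => h2 y]
    have h3 := av_symm q u (av q u)
    have h4 : ∀ y, u y * av q (av q u) y = u y * av q u y := fun y => by
      rw [av_meas q (av q u) (av_meas' q u)]
    rw [sum_congr rfl fun y _ => h4 y] at h3
    rw [← h3]
    exact sum_congr rfl fun y _ => by rw [sq]
  have h2 : ∑ y, (av q' u y - av q u y) ^ 2 =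
      ∑ y, av q' u y ^ 2 - 2 * ∑ y, av q' u y * av q u y + ∑ y, av q u y ^ 2 := by
    rw [mul_sum, ← sum_sub_distrib, ← sum_add_distrib]
    exact sum_congr rfl fun y _ => by ring
  rw [h2, h1]
  ring

/-- the energy -/
noncomputable def en (k : V → V → ℝ) (q : V → α) : ℝ := ∑ v, ∑ y, av q (k v) y ^ 2

lemma en_le {k : V → V → ℝ} {L : ℝ} (hk : ∀ v y, |k v y| ≤ L) (q : V → α) :
    en k q ≤ L ^ 2 * (Fintype.card V : ℝ) ^ 2 := by
  unfold en
  calc ∑ v, ∑ y, av q (k v) y ^ 2 ≤ ∑ _v : V, ∑ _y : V, L ^ 2 := by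
        refine sum_le_sum fun v _ => sum_le_sum fun y _ => ?_
        rw [← sq_abs]
        exact pow_le_pow_left₀ (abs_nonneg _) (abs_av_le q (hk v) y) 2
    _ = _ := by simp; ring

lemma en_nonneg (k : V → V → ℝ) (q : V → α) : 0 ≤ en k q :=
  sum_nonneg fun _ _ => sum_nonneg fun _ _ => sq_nonneg _

/-- the partition is good -/
def GoodP (k : V → V → ℝ) (ζ : ℝ) (q : V → α) : Prop := ∀ f : V → ℝ, (∀ x, |f x| ≤ 1) →
  ∑ v, ∑ y, (f v - av q f v) * k v y * (f y - av q f y) ≤ ζ * (Fintype.card V : ℝ) ^ 2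

lemma increment {k : V → V → ℝ} {ζ : ℝ} (hζ : 0 < ζ) (q : V → α) (h : ¬ GoodP k ζ q) :
    ∃ s : V → Bool, en k q + (ζ / 4) ^ 2 * (Fintype.card V : ℝ) ^ 2 ≤
      en k (fun x => (q x, s x)) := by
  classical
  unfold GoodP at h
  push Not at h
  obtain ⟨f, hf, hlt⟩ := h
  set n : ℝ := (Fintype.card V : ℝ) with hn
  have hn0 : 0 ≤ n := Nat.cast_nonneg _
  set h : V → ℝ := fun x => f x - av q f x with hh
  set F : V → ℝ := fun y => ∑ v, h v * k v y with hF
  have hh2 : ∀ x, |h x| ≤ 2 := by
    intro x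
    have h1 := hf x
    have h2 := abs_av_le q hf x
    calc |h x| ≤ |f x| + |av q f x| := abs_sub _ _
      _ ≤ 2 := by linarith
  have e1 : ζ * n ^ 2 < ∑ y, F y * h y := by
    refine lt_of_lt_of_eq hlt ?_
    rw [sum_comm]
    refine sum_congr rfl fun y _ => ?_
    simp only [hF, hh]
    rw [sum_mul]
  let s : V → Bool := fun y => decide (0 ≤ F y - av q F y)
  let σ : V → ℝ := fun y => if s y = true then 1 else -1
  refine ⟨s, ?_⟩
  set q' : V → α × Bool := fun x => (q x, s x) with hq'
  have hr : ∀ x y, q' x = q' y → q x = q y := fun x y hxy => congrArg Prod.fst hxy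
  have hσ : ∀ x y, q' x = q' y → σ x = σ y := fun x y hxy => by
    have : s x = s y := congrArg Prod.snd hxy
    simp only [σ, this]
  have e2 : ∑ y, F y * h y = ∑ y, (F y - av q F y) * f y := by
    have h1 : ∑ y, F y * h y = ∑ y, F y * f y - ∑ y, F y * av q f y := by
      rw [← sum_sub_distrib]
      exact sum_congr rfl fun y _ => by simp only [hh]; ring
    rw [h1, ← av_symm q F f, ← sum_sub_distrib]
    exact sum_congr rfl fun y _ => by ring
  have e3 : ∑ y, (F y - av q F y) * f y ≤ ∑ y, (F y - av q F y) * σ y := by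
    refine sum_le_sum fun y _ => ?_
    have h1 : (F y - av q F y) * σ y = |F y - av q F y| := by
      by_cases h0 : 0 ≤ F y - av q F y
      · have h2 : σ y = 1 := by
          have : s y = true := decide_eq_true h0
          simp only [σ, this, if_true]
        rw [h2, mul_one, abs_of_nonneg h0]
      · have h2 : σ y = -1 := by
          have : s y = false := decide_eq_false h0
          simp [σ, this]
        rw [h2, abs_of_neg (not_le.1 h0)]
        ring
    rw [h1]
    calc _ ≤ |(F y - av q F y) * f y| := le_abs_self _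
      _ = |F y - av q F y| * |f y| := abs_mul _ _
      _ ≤ |F y - av q F y| * 1 := mul_le_mul_of_nonneg_left (hf y) (abs_nonneg _)
      _ = _ := mul_one _
  have e4 : ∑ y, (F y - av q F y) * σ y = ∑ y, (av q' F y - av q F y) * σ y := by
    have h1 : ∑ y, F y * σ y = ∑ y, av q' F y * σ y := by
      rw [av_symm q' F σ]
      exact sum_congr rfl fun y _ => by rw [av_meas q' σ hσ]
    have h2 : ∀ w : V → ℝ, ∑ y, (w y - av q F y) * σ y = ∑ y, w y * σ y - ∑ y, av q F y * σ y := by
      intro w
      rw [← sum_sub_distrib]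
      exact sum_congr rfl fun y _ => by ring
    rw [h2 F, h2 (av q' F), h1]
  have e5 : ∀ y, av q' F y - av q F y = ∑ v, h v * (av q' (k v) y - av q (k v) y) := by
    intro y
    have h1 := av_sum q' univ h k y
    have h2 := av_sum q univ h k y
    simp only [hF]
    rw [h1, h2, ← sum_sub_distrib]
    exact sum_congr rfl fun v _ => by ring
  have e6 : ∑ y, (av q' F y - av q F y) * σ y ≤
      2 * ∑ v, ∑ y, |av q' (k v) y - av q (k v) y| := by
    rw [sum_comm, mul_sum]
    refine sum_le_sum fun y _ => ?_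
    have hσ1 : |σ y| = 1 := by
      simp only [σ]
      split_ifs <;> norm_num
    calc _ ≤ |(av q' F y - av q F y) * σ y| := le_abs_self _
      _ = |∑ v, h v * (av q' (k v) y - av q (k v) y)| := by rw [abs_mul, hσ1, mul_one, e5]
      _ ≤ ∑ v, |h v * (av q' (k v) y - av q (k v) y)| := abs_sum_le_sum_abs _ _
      _ ≤ ∑ v, 2 * |av q' (k v) y - av q (k v) y| := by
          refine sum_le_sum fun v _ => ?_
          rw [abs_mul]
          exact mul_le_mul_of_nonneg_right (hh2 v) (abs_nonneg _)
      _ = _ := (mul_sum _ _ _).symm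
  set A : ℝ := ∑ v, ∑ y, |av q' (k v) y - av q (k v) y| with hA
  set D : ℝ := ∑ v, ∑ y, (av q' (k v) y - av q (k v) y) ^ 2 with hD
  have hζA : ζ * n ^ 2 < 2 * A := by linarith
  -- Cauchy-Schwarz
  have hcs : A ^ 2 ≤ n ^ 2 * D := by
    have h1 : A = ∑ p : V × V, |av q' (k p.1) p.2 - av q (k p.1) p.2| := by
      rw [hA, Fintype.sum_prod_type]
    have h2 : D = ∑ p : V × V, (av q' (k p.1) p.2 - av q (k p.1) p.2) ^ 2 := by
      rw [hD, Fintype.sum_prod_type]
    rw [h1, h2]
    have h3 := sq_sum_le_card_mul_sum_sq (s := (univ : Finset (V × V)))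
      (f := fun p => |av q' (k p.1) p.2 - av q (k p.1) p.2|)
    simp only [sq_abs] at h3
    refine h3.trans (le_of_eq ?_)
    rw [card_univ, Fintype.card_prod]
    push_cast
    rw [← hn]
    ring
  have hpy : en k q' = en k q + D := by
    unfold en
    rw [hD, ← sum_add_distrib]
    exact sum_congr rfl fun v _ => pyth q q' hr (k v)
  rw [hpy]
  have hDn : (ζ / 4) ^ 2 * n ^ 2 ≤ D := by
    by_cases hn1 : n = 0
    · rw [hn1]
      simp only [ne_eq, OfNat.ofNat_ne_zero, not_false_eq_true, zero_pow, mul_zero]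
      exact sum_nonneg fun _ _ => sum_nonneg fun _ _ => sq_nonneg _
    · have hn2 : 0 < n ^ 2 := by positivity
      have h1 : (ζ * n ^ 2 / 2) ^ 2 ≤ A ^ 2 :=
        pow_le_pow_left₀ (by positivity) (by linarith) 2
      have h2 : (ζ * n ^ 2 / 2) ^ 2 ≤ n ^ 2 * D := h1.trans hcs
      have h3 : n ^ 2 * ((ζ / 4) ^ 2 * n ^ 2) ≤ n ^ 2 * D := by
        refine le_trans ?_ h2
        have : 0 ≤ ζ ^ 2 * n ^ 4 := by positivity
        nlinarith
      exact le_of_mul_le_mul_left h3 hn2
  linarith

lemma av_inj (q : V → α) (e : α → β) (he : Function.Injective e) (f : V → ℝ) (x : V) :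
    av (fun y => e (q y)) f x = av q f x := by
  unfold av
  simp only [he.eq_iff]

lemma goodP_inj {k : V → V → ℝ} {ζ : ℝ} (q : V → α) (e : α → β) (he : Function.Injective e)
    (h : GoodP k ζ q) : GoodP k ζ (fun y => e (q y)) := by
  intro f hf
  simp only [av_inj q e he]
  exact h f hf

lemma en_inj {k : V → V → ℝ} (q : V → α) (e : α → β) (he : Function.Injective e) :
    en k (fun y => e (q y)) = en k q := by
  unfold en
  simp only [av_inj q e he]

end FKL

open FKL

theorem fk : S_FK := by
  intro B ζ L hζ hL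
  obtain ⟨J, hJ⟩ := exists_nat_gt (L ^ 2 / (ζ / 4) ^ 2)
  refine ⟨B * 2 ^ J, ?_⟩
  intro V _ _ k hk q
  set n : ℝ := (Fintype.card V : ℝ) with hn
  have hn0 : 0 < n := by
    rw [hn]
    exact_mod_cast Fintype.card_pos
  have key : ∀ j : ℕ, ∃ q' : V → Fin (B * 2 ^ j),
      (∃ r : Fin (B * 2 ^ j) → Fin B, ∀ x, q x = r (q' x)) ∧
      (GoodP k ζ q' ∨ j * ((ζ / 4) ^ 2 * n ^ 2) ≤ en k q') := by
    intro j
    induction j with
    | zero =>
      have hB : B = B * 2 ^ 0 := by simp
      refine ⟨fun x => Fin.cast hB (q x), ⟨fun y => Fin.cast hB.symm y, fun x => rfl⟩, Or.inr ?_⟩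
      simp only [Nat.cast_zero, zero_mul]
      exact en_nonneg _ _
    | succ j ih =>
      obtain ⟨q', ⟨r, hr⟩, hg⟩ := ih
      have hB : B * 2 ^ j * 2 = B * 2 ^ (j + 1) := by rw [pow_succ, mul_assoc]
      let E : Fin (B * 2 ^ j) × Bool → Fin (B * 2 ^ (j + 1)) := fun p =>
        Fin.cast hB (finProdFinEquiv (p.1, finTwoEquiv.symm p.2))
      let E' : Fin (B * 2 ^ (j + 1)) → Fin (B * 2 ^ j) := fun y =>
        (finProdFinEquiv.symm (Fin.cast hB.symm y)).1
      have hE : Function.Injective E := by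
        intro p p' h
        have h1 := finProdFinEquiv.injective (Fin.cast_injective hB h)
        have h2 := congrArg Prod.fst h1
        have h3 := finTwoEquiv.symm.injective (congrArg Prod.snd h1)
        exact Prod.ext h2 h3
      have hEE : ∀ p, E' (E p) = p.1 := by
        intro p
        simp only [E, E']
        rw [show Fin.cast hB.symm (Fin.cast hB (finProdFinEquiv (p.1, finTwoEquiv.symm p.2))) =
          finProdFinEquiv (p.1, finTwoEquiv.symm p.2) from rfl, Equiv.symm_apply_apply]
      by_cases hgood : GoodP k ζ q'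
      · refine ⟨fun x => E (q' x, true), ⟨fun y => r (E' y), fun x => ?_⟩, Or.inl ?_⟩
        · change q x = r (E' (E (q' x, true)))
          rw [hEE]
          exact hr x
        · exact goodP_inj q' (fun y => E (y, true)) (fun a b h => congrArg Prod.fst (hE h)) hgood
      · obtain ⟨s, hs⟩ := increment hζ q' hgood
        refine ⟨fun x => E (q' x, s x), ⟨fun y => r (E' y), fun x => ?_⟩, Or.inr ?_⟩
        · change q x = r (E' (E (q' x, s x)))
          rw [hEE]
          exact hr x
        · rw [en_inj (k := k) (fun x => (q' x, s x)) E hE]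
          have h1 := hg.resolve_left hgood
          push_cast
          linarith
  obtain ⟨q', hr, hg⟩ := key J
  refine ⟨q', hr, ?_⟩
  rcases hg with hg | hg
  · exact hg
  · exfalso
    have h1 := en_le hk q'
    have hz : 0 < (ζ / 4) ^ 2 := by positivity
    rw [div_lt_iff₀ hz] at hJ
    have h2 : L ^ 2 * n ^ 2 < J * (ζ / 4) ^ 2 * n ^ 2 :=
      mul_lt_mul_of_pos_right hJ (by positivity)
    linarith

end Pool.Agent.Helper38K9.PT
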