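import Pool.Agent.Helper38K9.PT.Chain

/-!
Counting in the shadow graph of a linear triple system.
-/

set_option linter.unusedSectionVars false

namespace Pool.Agent.Helper38K9.PT

open Finset

variable {V : Type*} [Fintype V] [DecidableEq V] (H : LTS V)

/-- indicator of edges -/
def LTS.T (b y z : V) : ℝ := if ({b, y, z} : Finset V) ∈ H.edges then 1 else 0

/-- indicator of adjacency -/
def LTS.W (x y : V) : ℝ := if H.Adj x y then 1 else 0

theorem LTS.T_nonneg (b y z : V) : 0 ≤ H.T b y z := by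
  unfold LTS.T; split_ifs <;> norm_num

theorem LTS.W_nonneg (x y : V) : 0 ≤ H.W x y := by
  unfold LTS.W; split_ifs <;> norm_num

theorem LTS.W_le_one (x y : V) : H.W x y ≤ 1 := by
  unfold LTS.W; split_ifs <;> norm_num

theorem LTS.adj_symm {x y : V} (h : H.Adj x y) : H.Adj y x :=
  ⟨h.1.symm, h.2.imp fun _ he => ⟨he.1, he.2.2, he.2.1⟩⟩

theorem LTS.W_symm (x y : V) : H.W x y = H.W y x := by
  unfold LTS.W
  have : H.Adj x y ↔ H.Adj y x := ⟨H.adj_symm, H.adj_symm⟩
  simp only [this]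

theorem LTS.T_swap (b y z : V) : H.T b y z = H.T b z y := by
  unfold LTS.T; rw [Finset.pair_comm y z]

theorem LTS.T_swap' (b y z : V) : H.T b y z = H.T y b z := by
  unfold LTS.T
  have : ({b, y, z} : Finset V) = {y, b, z} := Finset.insert_comm _ _ _
  rw [this]

theorem LTS.distinct {b y z : V} (h : ({b, y, z} : Finset V) ∈ H.edges) :
    b ≠ y ∧ b ≠ z ∧ y ≠ z := by
  have h3 := H.card_eq _ h
  refine ⟨?_, ?_, ?_⟩
  · rintro rfl
    have : ({b, b, z} : Finset V).card ≤ 2 := by
      rw [Finset.insert_eq_of_mem (by simp)]; exact Finset.card_le_two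
    omega
  · rintro rfl
    have : ({b, y, b} : Finset V).card ≤ 2 := by
      rw [Finset.insert_eq_of_mem (by simp)]; exact Finset.card_le_two
    omega
  · rintro rfl
    have : ({b, y, y} : Finset V).card ≤ 2 := by
      rw [Finset.pair_eq_singleton]; exact Finset.card_le_two
    omega

theorem LTS.edge_unique {e f : Finset V} (he : e ∈ H.edges) (hf : f ∈ H.edges) {x y : V}
    (hxy : x ≠ y) (hxe : x ∈ e) (hye : y ∈ e) (hxf : x ∈ f) (hyf : y ∈ f) : e = f := by
  by_contra hne
  have h1 := H.linear e he f hf hne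
  have h2 : ({x, y} : Finset V) ⊆ e ∩ f := by
    intro u hu
    rw [Finset.mem_insert, Finset.mem_singleton] at hu
    rcases hu with rfl | rfl <;> simp [*]
  have h3 := Finset.card_le_card h2
  rw [Finset.card_pair hxy] at h3
  omega

theorem LTS.third {x y : V} (h : H.Adj x y) : ∃ z, ({x, y, z} : Finset V) ∈ H.edges := by
  obtain ⟨hxy, e, he, hx, hy⟩ := h
  have h3 := H.card_eq e he
  obtain ⟨z, hz⟩ : ∃ z, z ∈ (e.erase x).erase y := by
    apply Finset.card_pos.1
    rw [Finset.card_erase_of_mem (by simp [hy, hxy.symm]), Finset.card_erase_of_mem hx]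
    omega
  rw [Finset.mem_erase, Finset.mem_erase] at hz
  refine ⟨z, ?_⟩
  have hsub : ({x, y, z} : Finset V) ⊆ e := by
    intro u hu
    simp only [Finset.mem_insert, Finset.mem_singleton] at hu
    rcases hu with rfl | rfl | rfl
    · exact hx
    · exact hy
    · exact hz.2.2
  have hc : ({x, y, z} : Finset V).card = 3 := by
    rw [Finset.card_eq_three]
    exact ⟨x, y, z, hxy, fun h => hz.2.1 h.symm, fun h => hz.1 h.symm, rfl⟩
  rw [Finset.eq_of_subset_of_card_le hsub (by omega)]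
  exact he

theorem LTS.adj_of_edge {b y z : V} (h : ({b, y, z} : Finset V) ∈ H.edges) :
    H.Adj b y ∧ H.Adj b z ∧ H.Adj y z := by
  obtain ⟨h1, h2, h3⟩ := H.distinct h
  exact ⟨⟨h1, _, h, by simp, by simp⟩, ⟨h2, _, h, by simp, by simp⟩, ⟨h3, _, h, by simp, by simp⟩⟩

theorem LTS.third_unique {x y z z' : V} (h : ({x, y, z} : Finset V) ∈ H.edges)
    (h' : ({x, y, z'} : Finset V) ∈ H.edges) : z = z' := by
  obtain ⟨h1, h2, h3⟩ := H.distinct h
  have := H.edge_unique h h' h1 (by simp) (by simp) (by simp) (by simp)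
  have hz : z ∈ ({x, y, z'} : Finset V) := by rw [← this]; simp
  simp only [Finset.mem_insert, Finset.mem_singleton] at hz
  rcases hz with hz | hz | hz
  · exact absurd hz.symm h2
  · exact absurd hz.symm h3
  · exact hz

theorem LTS.sum_T (b y : V) : ∑ z, H.T b y z = H.W b y := by
  by_cases h : H.Adj b y
  · obtain ⟨z, hz⟩ := H.third h
    rw [Finset.sum_eq_single z]
    · simp [LTS.T, LTS.W, hz, h]
    · intro z' _ hz'
      rw [LTS.T, if_neg]
      intro h'
      exact hz' (H.third_unique h' hz)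
    · simp
  · rw [LTS.W, if_neg h]
    apply Finset.sum_eq_zero
    intro z _
    rw [LTS.T, if_neg]
    intro h'
    exact h (H.adj_of_edge h').1

theorem LTS.sum_T_left (y z : V) : ∑ b, H.T b y z = H.W y z := by
  have : ∀ b, H.T b y z = H.T y z b := fun b => by rw [H.T_swap' b y z, H.T_swap y b z]
  simp only [this, H.sum_T]

theorem LTS.sum_T_mid (b z : V) : ∑ y, H.T b y z = H.W b z := by
  have : ∀ y, H.T b y z = H.T b z y := fun y => H.T_swap b y z
  simp only [this, H.sum_T]

theorem LTS.sum_W : ∑ y, ∑ z, H.W y z = 6 * H.edges.card := by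
  have h1 : ∑ y, ∑ z, H.W y z = ((univ.filter fun t : V × V => H.Adj t.1 t.2).card : ℝ) := by
    rw [Finset.card_filter, Nat.cast_sum, Fintype.sum_prod_type]
    simp [LTS.W]
  have h2 : (univ.filter fun t : V × V => H.Adj t.1 t.2) =
      H.edges.biUnion fun e => e.offDiag := by
    ext t
    simp only [Finset.mem_filter, Finset.mem_univ, true_and, Finset.mem_biUnion,
      Finset.mem_offDiag, LTS.Adj]
    constructor
    · rintro ⟨h, e, he, hx, hy⟩
      exact ⟨e, he, hx, hy, h⟩
    · rintro ⟨e, he, hx, hy, h⟩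
      exact ⟨h, e, he, hx, hy⟩
  have h3 : (H.edges.biUnion fun e => e.offDiag).card = ∑ e ∈ H.edges, e.offDiag.card := by
    apply Finset.card_biUnion
    intro e he f hf hef
    rw [Function.onFun, Finset.disjoint_left]
    intro t ht ht'
    rw [Finset.mem_offDiag] at ht ht'
    exact hef (H.edge_unique he hf ht.2.2 ht.1 ht.2.1 ht'.1 ht'.2.1)
  have h4 : ∀ e ∈ H.edges, e.offDiag.card = 6 := by
    intro e he
    rw [Finset.offDiag_card, H.card_eq e he]
  rw [h1, h2, h3, Finset.sum_congr rfl h4, Finset.sum_const, smul_eq_mul]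
  push_cast; ring

theorem LTS.cod_eq (v y : V) : (H.cod v y : ℝ) = ∑ b, H.W v b * H.W b y := by
  rw [LTS.cod, Finset.card_filter, Nat.cast_sum]
  apply Finset.sum_congr rfl
  intro b _
  unfold LTS.W
  by_cases h1 : H.Adj v b <;> by_cases h2 : H.Adj b y <;> simp [h1, h2]

/-- degree in the shadow graph -/
noncomputable def LTS.dg (b : V) : ℝ := ∑ v, H.W v b

theorem LTS.dg_nonneg (b : V) : 0 ≤ H.dg b := Finset.sum_nonneg fun _ _ => H.W_nonneg _ _

theorem LTS.sum_dg : ∑ b, H.dg b = 6 * H.edges.card := by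
  unfold LTS.dg
  rw [Finset.sum_comm, H.sum_W]

theorem LTS.sum_TT (b : V) : ∑ y, ∑ z, H.T b y z = H.dg b := by
  simp only [H.sum_T, LTS.dg]
  exact Finset.sum_congr rfl fun y _ => H.W_symm _ _

/-- a typical triple -/
def LTS.GT (v y z : V) : Prop :=
  H.Adj y z ∧ (¬ ∃ e ∈ H.edges, v ∈ e ∧ y ∈ e ∧ z ∈ e) ∧ v ≠ y ∧ v ≠ z ∧
    100 ≤ H.cod v y ∧ 100 ≤ H.cod v z

open Classical in
/-- number of labelled pentagons -/
noncomputable def LTS.G5 : ℕ :=
  Nat.card {t : V × V × V × V × V // H.Pent t.1 t.2.1 t.2.2.1 t.2.2.2.1 t.2.2.2.2}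

open Classical in
theorem LTS.sum_GT {V : Type} [Fintype V] [DecidableEq V] (H : LTS V) (hP : S_PENT1) :
    ∑ v, ∑ y, ∑ z, (if H.GT v y z then (H.cod v y : ℝ) * H.cod v z else 0) ≤ 4 * H.G5 := by
  have h1 : (H.G5 : ℝ) =
      ∑ v, ∑ y, ∑ z, (Nat.card {bb : V × V // H.Pent v bb.1 y z bb.2} : ℝ) := by
    have h2 : H.G5 = Fintype.card
        {t : V × V × V × V × V // H.Pent t.1 t.2.1 t.2.2.1 t.2.2.2.1 t.2.2.2.2} := by
      rw [LTS.G5, Nat.card_eq_fintype_card]
    rw [h2, Fintype.card_subtype, Finset.card_filter, Nat.cast_sum]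
    simp only [Fintype.sum_prod_type, Nat.card_eq_fintype_card, Fintype.card_subtype,
      Finset.card_filter, Nat.cast_sum, Nat.cast_ite, Nat.cast_one, Nat.cast_zero]
    apply Finset.sum_congr rfl
    intro v _
    rw [Finset.sum_comm]
    apply Finset.sum_congr rfl
    intro y _
    rw [Finset.sum_comm]
  rw [h1, Finset.mul_sum]
  apply Finset.sum_le_sum; intro v _
  rw [Finset.mul_sum]
  apply Finset.sum_le_sum; intro y _
  rw [Finset.mul_sum]
  apply Finset.sum_le_sum; intro z _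
  split_ifs with h
  · have := hP V H v y z h.1 h.2.1 h.2.2.1 h.2.2.2.1 h.2.2.2.2.1 h.2.2.2.2.2
    exact_mod_cast this
  · positivity

end Pool.Agent.Helper38K9.PT
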