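import Pool.Agent.Helper38K9.PT.Leaves

/-!
Leaf [J] for MP_86e34a_co: the main lower bound (helper83).
-/

namespace Pool.Agent.Helper38K9.PT
namespace JL

open Finset

lemma av_meas {V α : Type*} [Fintype V] [DecidableEq α] (q : V → α) (f : V → ℝ) {y y' : V}
    (h : q y = q y') : av q f y = av q f y' := by
  unfold av; rw [h]

lemma card_cell_pos {V α : Type*} [Fintype V] [DecidableEq α] (q : V → α) (x : V) :
    (0 : ℝ) < ((univ.filter (fun y => q y = q x)).card : ℝ) := by
  have : 0 < (univ.filter (fun y => q y = q x)).card :=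
    Finset.card_pos.2 ⟨x, by simp⟩
  exact_mod_cast this

lemma av_nonneg {V α : Type*} [Fintype V] [DecidableEq α] (q : V → α) (f : V → ℝ)
    (hf : ∀ x, 0 ≤ f x) (y : V) : 0 ≤ av q f y := by
  unfold av
  exact div_nonneg (Finset.sum_nonneg fun x _ => hf x) (Nat.cast_nonneg _)

lemma av_le {V α : Type*} [Fintype V] [DecidableEq α] (q : V → α) (f : V → ℝ) (L : ℝ)
    (hf : ∀ x, f x ≤ L) (y : V) : av q f y ≤ L := by
  unfold av
  rw [div_le_iff₀ (card_cell_pos q y)]
  calc ∑ x ∈ univ.filter (fun x => q x = q y), f x
      ≤ ∑ x ∈ univ.filter (fun x => q x = q y), L := Finset.sum_le_sum fun x _ => hf x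
    _ = L * ((univ.filter (fun x => q x = q y)).card : ℝ) := by
        rw [Finset.sum_const, nsmul_eq_mul, mul_comm]

lemma sum_mul_av {V α : Type*} [Fintype V] [DecidableEq α] (q : V → α) (f g : V → ℝ)
    (hg : ∀ y y', q y = q y' → g y = g y') :
    ∑ y, g y * av q f y = ∑ y, g y * f y := by
  have h1 : ∀ y, g y * av q f y = ∑ y', if q y' = q y then
      g y' * f y' / ((univ.filter (fun x => q x = q y')).card : ℝ) else 0 := by
    intro y
    unfold av
    rw [← Finset.sum_filter, Finset.sum_div, Finset.mul_sum]
    apply Finset.sum_congr rfl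
    intro x hx
    have hx' : q x = q y := (Finset.mem_filter.1 hx).2
    rw [hg x y hx', hx']; ring
  simp_rw [h1]
  rw [Finset.sum_comm]
  apply Finset.sum_congr rfl
  intro y _
  rw [← Finset.sum_filter, Finset.sum_const, nsmul_eq_mul]
  have h2 : (univ.filter (fun x => q y = q x)) = univ.filter (fun x => q x = q y) := by
    ext x; simp [eq_comm]
  rw [h2]
  have hc := (card_cell_pos q y).ne'
  field_simp

lemma sum_av {V α : Type*} [Fintype V] [DecidableEq α] (q : V → α) (f : V → ℝ) :
    ∑ y, av q f y = ∑ y, f y := by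
  have := sum_mul_av q f (fun _ => 1) (fun _ _ _ => rfl)
  simpa using this

/-- the number of points in small cells -/
lemma card_small {V : Type*} [Fintype V] {N : ℕ} (q : V → Fin N) (δ : ℝ) (hδ : 0 ≤ δ) :
    (((univ.filter (fun v => ((univ.filter (fun v' => q v' = q v)).card : ℝ) < δ)).card : ℕ) : ℝ)
      ≤ N * δ := by
  rw [Finset.card_eq_sum_card_fiberwise (f := q) (t := univ) (fun x _ => Finset.mem_univ _)]
  push_cast
  have : ∀ c ∈ (univ : Finset (Fin N)),
      ((((univ.filter (fun v => ((univ.filter (fun v' => q v' = q v)).card : ℝ) < δ)).filter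
        (fun x => q x = c)).card : ℕ) : ℝ) ≤ δ := by
    intro c _
    rcases Finset.eq_empty_or_nonempty
      ((univ.filter (fun v => ((univ.filter (fun v' => q v' = q v)).card : ℝ) < δ)).filter
        (fun x => q x = c)) with h | ⟨v0, hv0⟩
    · rw [h]; simpa using hδ
    · have h1 := (Finset.mem_filter.1 hv0).2
      have h2 := (Finset.mem_filter.1 (Finset.mem_filter.1 hv0).1).2
      refine le_trans ?_ h2.le
      have : ((univ.filter (fun v => ((univ.filter (fun v' => q v' = q v)).card : ℝ) < δ)).filter
        (fun x => q x = c)).card ≤ (univ.filter (fun v' => q v' = q v0)).card := by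
        apply Finset.card_le_card
        intro x hx
        have := (Finset.mem_filter.1 hx).2
        simp [this, h1]
      exact_mod_cast this
  calc ∑ c : Fin N, ((((univ.filter (fun v => ((univ.filter (fun v' => q v' = q v)).card : ℝ) < δ)).filter
        (fun x => q x = c)).card : ℕ) : ℝ) ≤ ∑ c : Fin N, δ := Finset.sum_le_sum this
    _ = N * δ := by simp

end JL

open Finset JL in
open Classical in
theorem jlow : S_J := by
  intro L K N B hL hK V _ _ p ρ' ρb Λ q0 q1 hp hρ0 hρL hρle htail hΛ0 hΛ1 hΛ2 hΛ3 hΛ hb0 hb1 herr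
  set n : ℝ := (Fintype.card V : ℝ) with hn
  have hnpos : 0 < n := by
    rw [hn]; exact_mod_cast Fintype.card_pos
  have hL0 : 0 < L := by linarith
  obtain ⟨v₀⟩ := (inferInstance : Nonempty V)
  have hN : 0 < N := (q0 v₀).pos
  have hN' : (0 : ℝ) < N := by exact_mod_cast hN
  set σ : V → V → ℝ := fun v y => av q1 (ρ' v) y with hσ
  have hσ0 : ∀ v y, 0 ≤ σ v y := fun v y => av_nonneg _ _ (hρ0 v) y
  have hσL : ∀ v y, σ v y ≤ L := fun v y => av_le _ _ L (hρL v) y
  have hσm : ∀ v y y', q1 y = q1 y' → σ v y = σ v y' := fun v y y' h => av_meas _ _ h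
  set e : V → V → ℝ := fun v y => |σ v y - ρb v y| with he
  have he0 : ∀ v y, 0 ≤ e v y := fun v y => abs_nonneg _
  set Q : V → Finset V := fun v => univ.filter (fun v' => q0 v' = q0 v) with hQ
  have hQpos : ∀ v, (0 : ℝ) < ((Q v).card : ℝ) := fun v => card_cell_pos q0 v
  set W : V → V → Finset V := fun v y =>
    univ.filter (fun v' => q0 v' = q0 v ∧ σ v' y < ρb v y / 2) with hW
  set δ : ℝ := n / (100 * L * N) with hδ
  have hδpos : 0 < δ := by rw [hδ]; positivity
  set bad : V → V → Prop := fun v y =>
    ρb v y < 1 / 100 ∨ (Q v).card < 3 * (W v y).card ∨ ((Q v).card : ℝ) < δ with hbad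
  have hbadm : ∀ v y y', q1 y = q1 y' → (bad v y ↔ bad v y') := by
    intro v y y' h
    have h1 := hb1 v y y' h
    have h2 : W v y = W v y' := by
      ext x
      simp only [hW, Finset.mem_filter, Finset.mem_univ, true_and]
      rw [hσm x y y' h, h1]
    simp only [hbad]
    rw [h1, h2]
  -- the key pointwise bound
  have hpt : ∀ v y, (if bad v y then σ v y else 0) ≤
      (if ((Q v).card : ℝ) < δ then L else 0) + e v y + 1 / 100
        + 6 * av q0 (fun v' => e v' y) v := by
    intro v y
    have hav : 0 ≤ av q0 (fun v' => e v' y) v := av_nonneg _ _ (fun x => he0 x y) v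
    have hif : (0 : ℝ) ≤ (if ((Q v).card : ℝ) < δ then L else 0) := by
      split_ifs <;> linarith
    by_cases hbd : bad v y
    · rw [if_pos hbd]
      by_cases h3 : ((Q v).card : ℝ) < δ
      · rw [if_pos h3]
        have := hσL v y
        have := he0 v y
        linarith
      · have h4 : σ v y ≤ e v y + ρb v y := by
          have : σ v y - ρb v y ≤ e v y := le_abs_self _
          linarith
        by_cases h1 : ρb v y < 1 / 100
        · linarith
        · have h2 : (Q v).card < 3 * (W v y).card := by
            rcases hbd with h | h | h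
            · exact absurd h h1
            · exact h
            · exact absurd h h3
          have h5 : ρb v y ≤ 6 * av q0 (fun v' => e v' y) v := by
            have h6 : ρb v y / 2 * ((W v y).card : ℝ) ≤ ∑ v' ∈ Q v, e v' y := by
              calc ρb v y / 2 * ((W v y).card : ℝ) = ∑ v' ∈ W v y, ρb v y / 2 := by
                    rw [Finset.sum_const, nsmul_eq_mul, mul_comm]
                _ ≤ ∑ v' ∈ W v y, e v' y := by
                    apply Finset.sum_le_sum
                    intro x hx
                    have hx' := (Finset.mem_filter.1 hx).2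
                    have h7 : ρb x y = ρb v y := hb0 x v y hx'.1
                    have h8 : -(σ x y - ρb x y) ≤ e x y := neg_le_abs _
                    rw [h7] at h8
                    linarith [hx'.2]
                _ ≤ ∑ v' ∈ Q v, e v' y := by
                    apply Finset.sum_le_sum_of_subset_of_nonneg
                    · intro x hx
                      have hx' := (Finset.mem_filter.1 hx).2
                      simp [hQ, hx'.1]
                    · intro x _ _
                      exact he0 x y
            have h9 : ((Q v).card : ℝ) ≤ 3 * ((W v y).card : ℝ) := by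
              exact_mod_cast h2.le
            have h10 : av q0 (fun v' => e v' y) v = (∑ v' ∈ Q v, e v' y) / ((Q v).card : ℝ) := rfl
            rw [h10]
            have h11 : ρb v y * ((Q v).card : ℝ) ≤ 6 * ∑ v' ∈ Q v, e v' y := by
              have : (0:ℝ) < ρb v y := by linarith
              nlinarith
            rw [mul_div_assoc', le_div_iff₀ (hQpos v)]
            exact h11
          linarith
    · rw [if_neg hbd]
      have := he0 v y
      linarith
  -- total mass of the bad pairs
  have hbadsum : ∑ v, ∑ y, (if bad v y then rho p v y else 0) ≤ 4 / 100 * n ^ 2 := by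
    have h1 : ∑ v, ∑ y, (if bad v y then rho p v y else 0) ≤
        ∑ v, ∑ y, (rho p v y - ρ' v y) + ∑ v, ∑ y, (if bad v y then ρ' v y else 0) := by
      rw [← Finset.sum_add_distrib]
      apply Finset.sum_le_sum
      intro v _
      rw [← Finset.sum_add_distrib]
      apply Finset.sum_le_sum
      intro y _
      have := hρle v y
      split_ifs <;> linarith
    have h2 : ∀ v, ∑ y, (if bad v y then ρ' v y else 0) = ∑ y, (if bad v y then σ v y else 0) := by
      intro v
      have := sum_mul_av q1 (ρ' v) (fun y => if bad v y then (1 : ℝ) else 0) (by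
        intro y y' h
        have := hbadm v y y' h
        simp only [this])
      have h3 : ∀ (f : V → ℝ), ∑ y, (if bad v y then (1 : ℝ) else 0) * f y =
          ∑ y, (if bad v y then f y else 0) := by
        intro f
        apply Finset.sum_congr rfl
        intro y _
        split_ifs <;> simp
      rw [h3, h3] at this
      exact this.symm
    simp_rw [h2] at h1
    have h4 : ∑ v, ∑ y, (if bad v y then σ v y else 0) ≤
        ∑ v : V, ∑ y : V, ((if ((Q v).card : ℝ) < δ then L else 0) + e v y + 1 / 100
        + 6 * av q0 (fun v' => e v' y) v) :=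
      Finset.sum_le_sum fun v _ => Finset.sum_le_sum fun y _ => hpt v y
    have h5 : ∑ v : V, ∑ y : V, ((if ((Q v).card : ℝ) < δ then L else 0) + e v y + 1 / 100
        + 6 * av q0 (fun v' => e v' y) v) =
        (∑ v : V, ∑ y : V, (if ((Q v).card : ℝ) < δ then L else 0)) + (∑ v : V, ∑ y : V, e v y)
          + (∑ v : V, ∑ y : V, (1 / 100 : ℝ)) + 6 * ∑ v : V, ∑ y : V, av q0 (fun v' => e v' y) v := by
      simp only [Finset.sum_add_distrib, Finset.mul_sum]
    have h6 : ∑ v : V, ∑ y : V, av q0 (fun v' => e v' y) v = ∑ v : V, ∑ y : V, e v y := by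
      rw [Finset.sum_comm]
      conv_rhs => rw [Finset.sum_comm]
      apply Finset.sum_congr rfl
      intro y _
      exact sum_av q0 (fun v' => e v' y)
    have h7 : ∑ v : V, ∑ y : V, (1 / 100 : ℝ) = n ^ 2 / 100 := by
      simp only [Finset.sum_const, Finset.card_univ, nsmul_eq_mul, ← hn]
      ring
    have h8 : ∑ v : V, ∑ y : V, (if ((Q v).card : ℝ) < δ then L else 0) ≤ n ^ 2 / 100 := by
      have h9 : ∑ v : V, ∑ y : V, (if ((Q v).card : ℝ) < δ then L else 0) =
          n * L * ((univ.filter (fun v => ((Q v).card : ℝ) < δ)).card : ℝ) := by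
        simp only [Finset.sum_const, Finset.card_univ, nsmul_eq_mul, ← hn]
        rw [← Finset.mul_sum, ← Finset.sum_filter, Finset.sum_const, nsmul_eq_mul]
        ring
      rw [h9]
      have h10 := card_small q0 δ hδpos.le
      have h11 : ((univ.filter (fun v => ((Q v).card : ℝ) < δ)).card : ℝ) ≤ N * δ := h10
      calc n * L * ((univ.filter (fun v => ((Q v).card : ℝ) < δ)).card : ℝ)
          ≤ n * L * (N * δ) := by
            apply mul_le_mul_of_nonneg_left h11
            positivity
        _ = n ^ 2 / 100 := by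
            rw [hδ]; field_simp
    have h12 : ∑ v : V, ∑ y : V, e v y ≤ 1 / 800 * n ^ 2 := herr
    rw [h5, h6, h7] at h4
    have h13 : 0 ≤ n ^ 2 := sq_nonneg n
    linarith [htail]
  -- lower bound for s on good triples
  set s : V → V → ℝ := fun y z => ∑ v, σ v y * σ v z with hs
  set s0 : ℝ := δ / 3 / 40000 with hs0
  have hs0pos : 0 < s0 := by rw [hs0]; positivity
  have hsn : ∀ y z, 0 ≤ s y z := fun y z =>
    Finset.sum_nonneg fun v _ => mul_nonneg (hσ0 v y) (hσ0 v z)
  have hgood : ∀ v y z, ¬ bad v y → ¬ bad v z → s0 ≤ s y z := by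
    intro v y z hy hz
    simp only [hbad, not_or, not_lt] at hy hz
    obtain ⟨hy1, hy2, hy3⟩ := hy
    obtain ⟨hz1, hz2, hz3⟩ := hz
    -- the set of the good v'
    have hsub : Q v \ (W v y ∪ W v z) ⊆ univ := Finset.subset_univ _
    have hcard : ((Q v).card : ℝ) / 3 ≤ ((Q v \ (W v y ∪ W v z)).card : ℝ) := by
      have h1 : (Q v).card ≤ (Q v \ (W v y ∪ W v z)).card + (W v y ∪ W v z).card := by
        have := Finset.le_card_sdiff (W v y ∪ W v z) (Q v)
        omega
      have h2 := Finset.card_union_le (W v y) (W v z)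
      have h3 : (Q v).card ≤ 3 * (Q v \ (W v y ∪ W v z)).card := by omega
      have h4 : ((Q v).card : ℝ) ≤ 3 * ((Q v \ (W v y ∪ W v z)).card : ℝ) := by exact_mod_cast h3
      linarith
    calc s0 ≤ ((Q v \ (W v y ∪ W v z)).card : ℝ) * (1 / 40000) := by
          rw [hs0]; linarith
      _ = ∑ x ∈ Q v \ (W v y ∪ W v z), (1 / 40000 : ℝ) := by
          rw [Finset.sum_const, nsmul_eq_mul]
      _ ≤ ∑ x ∈ Q v \ (W v y ∪ W v z), σ x y * σ x z := by
          apply Finset.sum_le_sum
          intro x hx
          rw [Finset.mem_sdiff, Finset.mem_union, not_or] at hx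
          obtain ⟨hxQ, hxy, hxz⟩ := hx
          have hq : q0 x = q0 v := (Finset.mem_filter.1 hxQ).2
          have h1 : ρb v y / 2 ≤ σ x y := by
            by_contra hc
            exact hxy (Finset.mem_filter.2 ⟨Finset.mem_univ _, hq, not_le.1 hc⟩)
          have h2 : ρb v z / 2 ≤ σ x z := by
            by_contra hc
            exact hxz (Finset.mem_filter.2 ⟨Finset.mem_univ _, hq, not_le.1 hc⟩)
          have h3 : (1 / 200 : ℝ) ≤ σ x y := by linarith
          have h4 : (1 / 200 : ℝ) ≤ σ x z := by linarith
          nlinarith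
      _ ≤ s y z := by
          apply Finset.sum_le_sum_of_subset_of_nonneg hsub
          intro x _ _
          exact mul_nonneg (hσ0 x y) (hσ0 x z)
  -- the mass of Λ
  have hΛtot : n ^ 3 / 8 ≤ ∑ y, ∑ z, (if s0 ≤ s y z then ∑ v, Λ v y z else 0) := by
    have h1 : ∑ v, ∑ y, ∑ z, Λ v y z ≤
        (∑ v, ∑ y, ∑ z, (if s0 ≤ s y z then Λ v y z else 0)) +
        (∑ v, ∑ y, ∑ z, (if bad v y then Λ v y z else 0)) +
        (∑ v, ∑ y, ∑ z, (if bad v z then Λ v y z else 0)) := by
      simp only [← Finset.sum_add_distrib]
      apply Finset.sum_le_sum; intro v _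
      apply Finset.sum_le_sum; intro y _
      apply Finset.sum_le_sum; intro z _
      have h0 := hΛ0 v y z
      by_cases h1 : bad v y
      · rw [if_pos h1]
        have : (0:ℝ) ≤ (if s0 ≤ s y z then Λ v y z else 0) := by split_ifs <;> linarith
        have : (0:ℝ) ≤ (if bad v z then Λ v y z else 0) := by split_ifs <;> linarith
        linarith
      · by_cases h2 : bad v z
        · rw [if_pos h2]
          have : (0:ℝ) ≤ (if s0 ≤ s y z then Λ v y z else 0) := by split_ifs <;> linarith
          have : (0:ℝ) ≤ (if bad v y then Λ v y z else 0) := by split_ifs <;> linarith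
          linarith
        · rw [if_pos (hgood v y z h1 h2), if_neg h1, if_neg h2]
          linarith
    have h2 : ∑ v, ∑ y, ∑ z, (if bad v y then Λ v y z else 0) ≤ 4 / 100 * n ^ 3 := by
      calc ∑ v, ∑ y, ∑ z, (if bad v y then Λ v y z else 0)
          ≤ ∑ v, ∑ y, n * (if bad v y then rho p v y else 0) := by
            apply Finset.sum_le_sum; intro v _
            apply Finset.sum_le_sum; intro y _
            by_cases h1 : bad v y
            · simp only [if_pos h1]
              exact hΛ1 v y
            · simp only [if_neg h1]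
              simp
        _ = n * ∑ v, ∑ y, (if bad v y then rho p v y else 0) := by
            simp only [Finset.mul_sum]
        _ ≤ n * (4 / 100 * n ^ 2) := mul_le_mul_of_nonneg_left hbadsum hnpos.le
        _ = 4 / 100 * n ^ 3 := by ring
    have h3 : ∑ v, ∑ y, ∑ z, (if bad v z then Λ v y z else 0) ≤ 4 / 100 * n ^ 3 := by
      calc ∑ v, ∑ y, ∑ z, (if bad v z then Λ v y z else 0)
          = ∑ v, ∑ z, ∑ y, (if bad v z then Λ v y z else 0) := by
            apply Finset.sum_congr rfl
            intro v _
            exact Finset.sum_comm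
        _ ≤ ∑ v, ∑ z, n * (if bad v z then rho p v z else 0) := by
            apply Finset.sum_le_sum; intro v _
            apply Finset.sum_le_sum; intro z _
            by_cases h1 : bad v z
            · simp only [if_pos h1]
              exact hΛ2 v z
            · simp only [if_neg h1]
              simp
        _ = n * ∑ v, ∑ z, (if bad v z then rho p v z else 0) := by
            simp only [Finset.mul_sum]
        _ ≤ n * (4 / 100 * n ^ 2) := mul_le_mul_of_nonneg_left hbadsum hnpos.le
        _ = 4 / 100 * n ^ 3 := by ring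
    have h4 : ∑ v, ∑ y, ∑ z, (if s0 ≤ s y z then Λ v y z else 0) =
        ∑ y, ∑ z, (if s0 ≤ s y z then ∑ v, Λ v y z else 0) := by
      rw [Finset.sum_comm]
      apply Finset.sum_congr rfl; intro y _
      rw [Finset.sum_comm]
      apply Finset.sum_congr rfl; intro z _
      split_ifs <;> simp
    rw [h4] at h1
    have h5 : 0 < n ^ 3 := by positivity
    linarith
  -- conclusion
  have hfin : s0 * ∑ y, ∑ z, (if s0 ≤ s y z then ∑ v, Λ v y z else 0) ≤
      K * n * ∑ v, ∑ y, ∑ z, σ v y * p y z * σ v z := by
    have h1 : ∑ v, ∑ y, ∑ z, σ v y * p y z * σ v z = ∑ y, ∑ z, p y z * s y z := by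
      rw [Finset.sum_comm]
      apply Finset.sum_congr rfl; intro y _
      rw [Finset.sum_comm]
      apply Finset.sum_congr rfl; intro z _
      rw [hs, Finset.mul_sum]
      apply Finset.sum_congr rfl; intro v _
      ring
    rw [h1, Finset.mul_sum, Finset.mul_sum]
    apply Finset.sum_le_sum; intro y _
    rw [Finset.mul_sum, Finset.mul_sum]
    apply Finset.sum_le_sum; intro z _
    by_cases h2 : s0 ≤ s y z
    · rw [if_pos h2]
      calc s0 * ∑ v, Λ v y z ≤ s0 * (K * n * p y z) :=
            mul_le_mul_of_nonneg_left (hΛ3 y z) hs0pos.le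
        _ = K * n * (p y z * s0) := by ring
        _ ≤ K * n * (p y z * s y z) := by
            apply mul_le_mul_of_nonneg_left _ (by positivity)
            exact mul_le_mul_of_nonneg_left h2 (hp y z)
    · rw [if_neg h2, mul_zero]
      exact mul_nonneg (by positivity) (mul_nonneg (hp y z) (hsn y z))
  have hT : s0 * (n ^ 3 / 8) ≤ K * n * ∑ v, ∑ y, ∑ z, σ v y * p y z * σ v z :=
    le_trans (mul_le_mul_of_nonneg_left hΛtot hs0pos.le) hfin
  have hKn : 0 < K * n := by positivity
  have h9 : s0 * (n ^ 3 / 8) / (K * n) ≤ ∑ v, ∑ y, ∑ z, σ v y * p y z * σ v z := by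
    rw [div_le_iff₀ hKn]
    linarith
  refine le_trans (le_of_eq ?_) h9
  rw [hs0, hδ]
  field_simp
  norm_num

end Pool.Agent.Helper38K9.PT
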