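import Pool.Agent.Helper38K9.PT.Defs

/-!
Leaf statements for MP_86e34a_co.
-/

namespace Pool.Agent.Helper38K9.PT

open Finset

/-- [FK] weak regularity lemma for bounded kernels -/
def S_FK : Prop := ∀ (B : ℕ) (ζ L : ℝ), 0 < ζ → 0 ≤ L → ∃ B' : ℕ,
  ∀ (V : Type) [Fintype V] [Nonempty V] (k : V → V → ℝ), (∀ v y, |k v y| ≤ L) →
  ∀ q : V → Fin B, ∃ q' : V → Fin B', (∃ r : Fin B' → Fin B, ∀ x, q x = r (q' x)) ∧
    ∀ f : V → ℝ, (∀ x, |f x| ≤ 1) →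
      ∑ v, ∑ y, (f v - av q' f v) * k v y * (f y - av q' f y) ≤ ζ * (Fintype.card V : ℝ) ^ 2

/-- [J] the main lower bound -/
def S_J : Prop := ∀ (L K : ℝ) (N B : ℕ), 1 ≤ L → 0 < K →
  ∀ (V : Type) [Fintype V] [Nonempty V] (p ρ' ρb : V → V → ℝ) (Λ : V → V → V → ℝ)
    (q0 : V → Fin N) (q1 : V → Fin B),
    (∀ y z, 0 ≤ p y z) → (∀ v y, 0 ≤ ρ' v y) → (∀ v y, ρ' v y ≤ L) →
    (∀ v y, ρ' v y ≤ rho p v y) →
    (∑ v, ∑ y, (rho p v y - ρ' v y) ≤ (1 / 100) * (Fintype.card V : ℝ) ^ 2) →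
    (∀ v y z, 0 ≤ Λ v y z) →
    (∀ v y, ∑ z, Λ v y z ≤ Fintype.card V * rho p v y) →
    (∀ v z, ∑ y, Λ v y z ≤ Fintype.card V * rho p v z) →
    (∀ y z, ∑ v, Λ v y z ≤ K * Fintype.card V * p y z) →
    ((Fintype.card V : ℝ) ^ 3 / 4 ≤ ∑ v, ∑ y, ∑ z, Λ v y z) →
    (∀ v v' y, q0 v = q0 v' → ρb v y = ρb v' y) →
    (∀ v y y', q1 y = q1 y' → ρb v y = ρb v y') →
    (∑ v, ∑ y, |av q1 (ρ' v) y - ρb v y| ≤ (1 / 800) * (Fintype.card V : ℝ) ^ 2) →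
    (Fintype.card V : ℝ) ^ 3 / (96 * 1000000 * L * K * N) ≤
      ∑ v, ∑ y, ∑ z, av q1 (ρ' v) y * p y z * av q1 (ρ' v) z

/-- [PENT1] many pentagons through a typical triple `(v; y, z)` -/
def S_PENT1 : Prop := ∀ (V : Type) [Fintype V] [DecidableEq V] (H : LTS V) (v y z : V),
  H.Adj y z → (¬ ∃ e ∈ H.edges, v ∈ e ∧ y ∈ e ∧ z ∈ e) → v ≠ y → v ≠ z →
  100 ≤ H.cod v y → 100 ≤ H.cod v z →
  H.cod v y * H.cod v z ≤
    4 * Nat.card {bb : V × V // H.Pent v bb.1 y z bb.2}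

/-- [PENT2] the number of labelled pentagons is at most `15^5` times the number of pentagons -/
def S_PENT2 : Prop := ∀ (V : Type) [Fintype V] [DecidableEq V] (H : LTS V),
  Nat.card {t : V × V × V × V × V // H.Pent t.1 t.2.1 t.2.2.1 t.2.2.2.1 t.2.2.2.2} ≤
    15 ^ 5 * H.pentagons

end Pool.Agent.Helper38K9.PT
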