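import Pool.Agent.Helper38K9.PT.Leaves

/-!
# Many pentagons through a typical triple
-/

set_option autoImplicit false

namespace Pool.Agent.Helper38K9.PT

open Finset

section thd

variable {V : Type} [DecidableEq V] (H : LTS V)

lemma ne_of_three {a b c : V} (h : ({a, b, c} : Finset V).card = 3) : a ≠ b ∧ a ≠ c ∧ b ≠ c := by
  refine ⟨?_, ?_, ?_⟩
  · rintro rfl
    rw [insert_eq_of_mem (mem_insert_self _ _)] at h
    have := card_le_two (a := a) (b := c)
    omega
  · rintro rfl
    have e : ({a, b, a} : Finset V) = {a, b} := by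
      ext x; simp only [mem_insert, mem_singleton]; tauto
    rw [e] at h
    have := card_le_two (a := a) (b := b)
    omega
  · rintro rfl
    have e : ({a, b, b} : Finset V) = {a, b} := by
      ext x; simp only [mem_insert, mem_singleton]; tauto
    rw [e] at h
    have := card_le_two (a := a) (b := b)
    omega

lemma ne_of_edge {a b c : V} (h : ({a, b, c} : Finset V) ∈ H.edges) : a ≠ b ∧ a ≠ c ∧ b ≠ c :=
  ne_of_three (H.card_eq _ h)

/-- the third vertex is unique -/
lemma third_unique {x y w w' : V} (h : ({x, y, w} : Finset V) ∈ H.edges)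
    (h' : ({x, y, w'} : Finset V) ∈ H.edges) : w = w' := by
  obtain ⟨h1, h2, h3⟩ := ne_of_edge H h
  have he : ({x, y, w} : Finset V) = {x, y, w'} := by
    by_contra hne
    have h4 := H.linear _ h _ h' hne
    have h5 : ({x, y} : Finset V) ⊆ {x, y, w} ∩ {x, y, w'} := by
      intro a ha
      simp only [mem_insert, mem_singleton, mem_inter] at ha ⊢
      tauto
    have h6 := card_le_card h5
    rw [card_pair h1] at h6
    omega
  have h7 : w ∈ ({x, y, w'} : Finset V) := by
    rw [← he]
    simp
  simp only [mem_insert, mem_singleton] at h7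
  rcases h7 with h7 | h7 | h7
  · exact absurd h7.symm h2
  · exact absurd h7.symm h3
  · exact h7

open Classical in
/-- the third vertex of the edge through `x` and `y` -/
noncomputable def thd (x y : V) : V :=
  if h : ∃ w, ({x, y, w} : Finset V) ∈ H.edges then h.choose else x

lemma thd_eq {x y w : V} (h : ({x, y, w} : Finset V) ∈ H.edges) : w = thd H x y := by
  have h' : ∃ w, ({x, y, w} : Finset V) ∈ H.edges := ⟨w, h⟩
  unfold thd
  rw [dif_pos h']
  exact third_unique H h h'.choose_spec

lemma exists_third {x y : V} (h : H.Adj x y) : ∃ w, ({x, y, w} : Finset V) ∈ H.edges := by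
  obtain ⟨hxy, e, he, hx, hy⟩ := h
  have h3 := H.card_eq e he
  have h1 : ({x, y} : Finset V) ⊆ e := by
    intro a ha
    simp only [mem_insert, mem_singleton] at ha
    rcases ha with rfl | rfl
    · exact hx
    · exact hy
  have h2 : (e \ {x, y}).card = 1 := by
    rw [card_sdiff_of_subset h1, card_pair hxy, h3]
  obtain ⟨w, hw⟩ := card_eq_one.mp h2
  refine ⟨w, ?_⟩
  have h4 : ({x, y, w} : Finset V) = e := by
    ext a
    have h5 : a ∈ e \ {x, y} ↔ a = w := by rw [hw, mem_singleton]
    simp only [mem_sdiff, mem_insert, mem_singleton] at h5 ⊢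
    constructor
    · rintro (rfl | rfl | rfl)
      · exact hx
      · exact hy
      · exact (h5.mpr rfl).1
    · intro ha
      by_cases h6 : a = x ∨ a = y
      · tauto
      · exact Or.inr (Or.inr (h5.mp ⟨ha, h6⟩))
  rw [h4]
  exact he

variable {H}

lemma mv {e e' : Finset V} (h : e ∈ H.edges) (he : ∀ t, t ∈ e' ↔ t ∈ e) : e' ∈ H.edges := by
  have : e' = e := Finset.ext he
  rw [this]
  exact h

lemma m132 {a b c : V} (h : ({a, b, c} : Finset V) ∈ H.edges) : {a, c, b} ∈ H.edges :=
  mv h (by intro t; simp only [mem_insert, mem_singleton]; tauto)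

lemma m213 {a b c : V} (h : ({a, b, c} : Finset V) ∈ H.edges) : {b, a, c} ∈ H.edges :=
  mv h (by intro t; simp only [mem_insert, mem_singleton]; tauto)

lemma m231 {a b c : V} (h : ({a, b, c} : Finset V) ∈ H.edges) : {b, c, a} ∈ H.edges :=
  mv h (by intro t; simp only [mem_insert, mem_singleton]; tauto)

lemma m321 {a b c : V} (h : ({a, b, c} : Finset V) ∈ H.edges) : {c, b, a} ∈ H.edges :=
  mv h (by intro t; simp only [mem_insert, mem_singleton]; tauto)

end thd

theorem pent1 : S_PENT1 := by
  classical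
  intro V _ _ H v y z hyz hno hvy hvz hcy hcz
  obtain ⟨w3, h3⟩ := exists_third H hyz
  obtain ⟨n1, n2, n3⟩ := ne_of_edge H h3
  have hvw3 : v ≠ w3 := by
    rintro rfl
    exact hno ⟨_, h3, by simp, by simp, by simp⟩
  set A : Finset V := univ.filter fun b => H.Adj v b ∧ H.Adj b y with hA
  set A' : Finset V := univ.filter fun b => H.Adj v b ∧ H.Adj b z with hA'
  have hAc : A.card = H.cod v y := rfl
  have hAc' : A'.card = H.cod v z := rfl
  set B0 : Finset V := {z, w3, thd H v y, thd H v z, thd H v w3} with hB0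
  let w1 : V → V := fun b => thd H v b
  let w2 : V → V := fun b => thd H b y
  let B1 : V → Finset V := fun b => {b, y, w1 b, w2 b, w3, thd H v b, thd H v y, thd H v z,
    thd H v (w1 b), thd H v (w2 b), thd H v w3, thd H z v, thd H z b, thd H z y, thd H z (w1 b),
    thd H z (w2 b), thd H z w3}
  have hB0c : B0.card ≤ 5 := by
    rw [hB0]
    refine (card_insert_le _ _).trans (Nat.succ_le_succ ?_)
    refine (card_insert_le _ _).trans (Nat.succ_le_succ ?_)
    refine (card_insert_le _ _).trans (Nat.succ_le_succ ?_)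
    exact card_le_two
  have hB1c : ∀ b, (B1 b).card ≤ 17 := by
    intro b
    simp only [B1]
    iterate 15 refine (card_insert_le _ _).trans (Nat.succ_le_succ ?_)
    exact card_le_two
  -- the pairs
  have key : ∀ b ∈ A \ B0, ∀ b' ∈ A' \ B1 b, H.Pent v b y z b' := by
    intro b hb b' hb'
    rw [mem_sdiff, hA, mem_filter] at hb
    rw [mem_sdiff, hA', mem_filter] at hb'
    obtain ⟨⟨-, hvb, hby⟩, hbB⟩ := hb
    obtain ⟨⟨-, hvb', hbz'⟩, hbB'⟩ := hb'
    obtain ⟨u1, h1⟩ := exists_third H hvb
    obtain ⟨u2, h2⟩ := exists_third H hby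
    obtain ⟨u4, h4⟩ := exists_third H hbz'
    obtain ⟨u5, h5⟩ := exists_third H hvb'
    have e1 : u1 = w1 b := thd_eq H h1
    have e2 : u2 = w2 b := thd_eq H h2
    simp only [hB0, mem_insert, mem_singleton, not_or] at hbB
    simp only [B1, mem_insert, mem_singleton, not_or] at hbB'
    rw [← e1, ← e2] at hbB'
    obtain ⟨p1, p2, p3, p4, p5⟩ := hbB
    obtain ⟨q1, q2, q3, q4, q5, q6, q7, q8, q9, q10, q11, q12, q13, q14, q15, q16, q17⟩ := hbB'
    obtain ⟨a1, a2, a3⟩ := ne_of_edge H h1
    obtain ⟨b1, b2, b3⟩ := ne_of_edge H h2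
    obtain ⟨c1, c2, c3⟩ := ne_of_edge H h4
    obtain ⟨d1, d2, d3⟩ := ne_of_edge H h5
    -- `{v, b, u1}`, `{b, y, u2}`, `{y, z, w3}`, `{b', z, u4}`, `{v, b', u5}`
    have k1 : u1 ≠ y := by
      rintro rfl
      exact p3 (thd_eq H (m132 h1))
    have k2 : u1 ≠ z := by
      rintro rfl
      exact p4 (thd_eq H (m132 h1))
    have k3 : u1 ≠ w3 := by
      rintro rfl
      exact p5 (thd_eq H (m132 h1))
    have k4 : u1 ≠ u2 := by
      rintro rfl
      exact hvy (third_unique H (x := b) (y := u1) (m231 h1) (m132 h2))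
    have k5 : u2 ≠ v := by
      rintro rfl
      exact p3 (thd_eq H (m321 h2))
    have k6 : u2 ≠ z := by
      rintro rfl
      exact p2 (third_unique H (x := y) (y := u2) (m231 h2) h3)
    have k7 : u2 ≠ w3 := by
      rintro rfl
      exact p1 (third_unique H (x := y) (y := u2) (m231 h2) (m132 h3))
    have l1 : u5 ≠ b := by
      rintro rfl
      exact q6 (thd_eq H (m132 h5))
    have l2 : u5 ≠ y := by
      rintro rfl
      exact q7 (thd_eq H (m132 h5))
    have l3 : u5 ≠ z := by
      rintro rfl
      exact q8 (thd_eq H (m132 h5))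
    have l4 : u5 ≠ u1 := by
      rintro rfl
      exact q9 (thd_eq H (m132 h5))
    have l5 : u5 ≠ u2 := by
      rintro rfl
      exact q10 (thd_eq H (m132 h5))
    have l6 : u5 ≠ w3 := by
      rintro rfl
      exact q11 (thd_eq H (m132 h5))
    have m1 : u4 ≠ v := by
      rintro rfl
      exact q12 (thd_eq H (m231 h4))
    have m2 : u4 ≠ b := by
      rintro rfl
      exact q13 (thd_eq H (m231 h4))
    have m3 : u4 ≠ y := by
      rintro rfl
      exact q14 (thd_eq H (m231 h4))
    have m4 : u4 ≠ u1 := by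
      rintro rfl
      exact q15 (thd_eq H (m231 h4))
    have m5 : u4 ≠ u2 := by
      rintro rfl
      exact q16 (thd_eq H (m231 h4))
    have m6 : u4 ≠ w3 := by
      rintro rfl
      exact q17 (thd_eq H (m231 h4))
    have m7 : u4 ≠ u5 := by
      rintro rfl
      exact hvz (third_unique H (x := b') (y := u4) (m231 h5) (m132 h4))
    refine ⟨u1, u2, w3, u4, u5, h1, h2, h3, m213 h4, m213 h5, ?_⟩
    simp only [List.nodup_cons, List.mem_cons, List.not_mem_nil, not_or, or_false,
      not_false_eq_true, List.nodup_nil, and_true]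
    repeat' apply And.intro
    all_goals first
      | assumption
      | exact Ne.symm (by assumption)
  -- counting
  have hle : (A \ B0).card * (H.cod v z - 17) ≤
      Nat.card {bb : V × V // H.Pent v bb.1 y z bb.2} := by
    rw [Nat.card_eq_fintype_card, Fintype.card_subtype]
    calc (A \ B0).card * (H.cod v z - 17) = ∑ b ∈ A \ B0, (H.cod v z - 17) := by
          rw [sum_const, smul_eq_mul]
      _ ≤ ∑ b ∈ A \ B0, (A' \ B1 b).card := by
          refine sum_le_sum fun b _ => ?_
          have h6 := le_card_sdiff (B1 b) A'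
          have h7 := hB1c b
          rw [hAc'] at h6
          omega
      _ = ((A \ B0).sigma fun b => A' \ B1 b).card := (card_sigma _ _).symm
      _ ≤ _ := by
          refine card_le_card_of_injOn (fun x => (x.1, x.2)) ?_ ?_
          · intro x hx
            have hx' := mem_sigma.mp (mem_coe.mp hx)
            exact mem_coe.mpr (mem_filter.mpr ⟨mem_univ _, key _ hx'.1 _ hx'.2⟩)
          · rintro ⟨a, b⟩ _ ⟨c, d⟩ _ h
            simp only [Prod.mk.injEq] at h
            obtain ⟨rfl, rfl⟩ := h
            rfl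
  have h6 := le_card_sdiff B0 A
  rw [hAc] at h6
  have h7 : H.cod v y - 5 ≤ (A \ B0).card := by omega
  have h8 := Nat.mul_le_mul_right (H.cod v z - 17) h7
  obtain ⟨a, ha⟩ := Nat.exists_eq_add_of_le hcy
  obtain ⟨c, hc⟩ := Nat.exists_eq_add_of_le hcz
  refine le_trans ?_ (Nat.mul_le_mul_left 4 (h8.trans hle))
  rw [ha, hc]
  have e1 : 100 + a - 5 = 95 + a := by omega
  have e2 : 100 + c - 17 = 83 + c := by omega
  rw [e1, e2]
  nlinarith [Nat.zero_le a, Nat.zero_le c, Nat.zero_le (a * c)]

end Pool.Agent.Helper38K9.PT
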