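import Pool.Agent.Helper38K9.PT.Leaves

/-!
# Labelled pentagons and pentagons
-/

set_option autoImplicit false

namespace Pool.Agent.Helper38K9.PT

open Finset

variable {V : Type} [DecidableEq V]

/-- the edge set of a labelled pentagon -/
lemma exists_P (H : LTS V) {v b y z b' : V} (h : H.Pent v b y z b') :
    ∃ P : Finset (Finset V), P ⊆ H.edges ∧ IsPentagon P ∧ P.card ≤ 5 ∧
      v ∈ P.biUnion id ∧ b ∈ P.biUnion id ∧ y ∈ P.biUnion id ∧ z ∈ P.biUnion id ∧
      b' ∈ P.biUnion id := by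
  obtain ⟨w1, w2, w3, w4, w5, h1, h2, h3, h4, h5, hnd⟩ := h
  let vv : Fin 5 → V := ![v, b, y, z, b']
  let ww : Fin 5 → V := ![w1, w2, w3, w4, w5]
  let l : List V := [v, b, y, z, b', w1, w2, w3, w4, w5]
  have hinj : Function.Injective (Sum.elim vv ww) := by
    have h6 : Sum.elim vv ww = (fun i : Fin 10 => l.get (i.cast rfl)) ∘ finSumFinEquiv := by
      funext i
      rcases i with i | i <;> fin_cases i <;> rfl
    rw [h6]
    exact (List.nodup_iff_injective_get.mp hnd).comp (Equiv.injective _)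
  let f : Fin 5 → Finset V := fun i => {vv i, vv (i + 1), ww i}
  have hf : ∀ i, f i ∈ H.edges := by
    intro i
    fin_cases i
    · exact h1
    · exact h2
    · exact h3
    · exact h4
    · exact h5
  have hmem : ∀ i : Fin 5, vv i ∈ (univ.image f).biUnion id := by
    intro i
    rw [mem_biUnion]
    exact ⟨f i, mem_image_of_mem _ (mem_univ _), by simp [f]⟩
  have hc : (univ.image f).card ≤ 5 := card_image_le.trans (by rw [card_univ, Fintype.card_fin])
  refine ⟨univ.image f, ?_, ⟨vv, ww, hinj, rfl⟩, hc, hmem 0, hmem 1, hmem 2, hmem 3, hmem 4⟩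
  intro e he
  obtain ⟨i, -, rfl⟩ := mem_image.mp he
  exact hf i

theorem pent2 : S_PENT2 := by
  classical
  intro V _ _ H
  set S : Finset (V × V × V × V × V) :=
    univ.filter fun t => H.Pent t.1 t.2.1 t.2.2.1 t.2.2.2.1 t.2.2.2.2 with hS
  have hcard : Nat.card {t : V × V × V × V × V // H.Pent t.1 t.2.1 t.2.2.1 t.2.2.2.1 t.2.2.2.2} =
      S.card := by
    rw [Nat.card_eq_fintype_card, Fintype.card_subtype]
  rw [hcard]
  let F : V × V × V × V × V → Finset (Finset V) := fun t =>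
    if h : H.Pent t.1 t.2.1 t.2.2.1 t.2.2.2.1 t.2.2.2.2 then (exists_P H h).choose else ∅
  have hF : ∀ t ∈ S, F t ⊆ H.edges ∧ IsPentagon (F t) ∧ (F t).card ≤ 5 ∧
      t.1 ∈ (F t).biUnion id ∧ t.2.1 ∈ (F t).biUnion id ∧ t.2.2.1 ∈ (F t).biUnion id ∧
      t.2.2.2.1 ∈ (F t).biUnion id ∧ t.2.2.2.2 ∈ (F t).biUnion id := by
    intro t ht
    have h : H.Pent t.1 t.2.1 t.2.2.1 t.2.2.2.1 t.2.2.2.2 := (mem_filter.mp ht).2
    have e : F t = (exists_P H h).choose := dif_pos h
    rw [e]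
    exact (exists_P H h).choose_spec
  have h1 : S.card ≤ 15 ^ 5 * (S.image F).card := by
    refine card_le_mul_card_image S _ ?_
    intro P hP
    obtain ⟨t0, ht0, rfl⟩ := mem_image.mp hP
    obtain ⟨g1, -, g3, -⟩ := hF t0 ht0
    set U := (F t0).biUnion id with hU
    have hUc : U.card ≤ 15 := by
      calc U.card ≤ ∑ e ∈ F t0, (id e).card := card_biUnion_le
        _ = ∑ e ∈ F t0, 3 := sum_congr rfl fun e he => H.card_eq e (g1 he)
        _ = (F t0).card * 3 := by rw [sum_const, smul_eq_mul]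
        _ ≤ 15 := by omega
    have h2 : (S.filter fun x => F x = F t0) ⊆ U ×ˢ U ×ˢ U ×ˢ U ×ˢ U := by
      intro t ht
      obtain ⟨ht1, ht2⟩ := mem_filter.mp ht
      obtain ⟨-, -, -, k1, k2, k3, k4, k5⟩ := hF t ht1
      rw [ht2] at k1 k2 k3 k4 k5
      simp only [mem_product]
      exact ⟨k1, k2, k3, k4, k5⟩
    refine (card_le_card h2).trans ?_
    simp only [card_product]
    calc U.card * (U.card * (U.card * (U.card * U.card))) = U.card ^ 5 := by ring
      _ ≤ 15 ^ 5 := Nat.pow_le_pow_left hUc 5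
  refine h1.trans (Nat.mul_le_mul_left _ ?_)
  refine card_le_card fun P hP => ?_
  obtain ⟨t, ht, rfl⟩ := mem_image.mp hP
  obtain ⟨g1, g2, -⟩ := hF t ht
  rw [mem_filter, mem_powerset]
  exact ⟨g1, g2⟩

end Pool.Agent.Helper38K9.PT
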