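import Pool.Agent.Helper38K9.PT.Avg
import Pool.Agent.Helper38K9.PT.Leaves

/-!
Regularity of `P` from the weak regularity lemma and the tail bound.
-/

namespace Pool.Agent.Helper38K9.PT

open Finset

theorem rho_nonneg {V : Type*} [Fintype V] {p : V → V → ℝ} (h : ∀ x y, 0 ≤ p x y) (v y : V) :
    0 ≤ rho p v y :=
  div_nonneg (Finset.sum_nonneg fun b _ => mul_nonneg (h _ _) (h _ _)) (by positivity)

theorem sum_sq_P {V : Type*} [Fintype V] [Nonempty V] {p : V → V → ℝ}
    (hs : ∀ x y, p x y = p y x) (h : V → ℝ) :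
    ∑ x, (∑ y, p x y * h y) ^ 2 =
      (Fintype.card V : ℝ) * ∑ v, ∑ y, h v * rho p v y * h y := by
  have hn : (Fintype.card V : ℝ) ≠ 0 := by
    have := Fintype.card_pos (α := V); positivity
  have h1 : ∀ v y, h v * rho p v y * h y =
      (∑ x, p v x * h v * (p x y * h y)) / Fintype.card V := by
    intro v y
    rw [rho, mul_div_assoc', div_mul_eq_mul_div, Finset.mul_sum, Finset.sum_mul]
    congr 1
    exact Finset.sum_congr rfl fun x _ => by ring
  simp only [h1, ← Finset.sum_div]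
  rw [mul_div_cancel₀ _ hn]
  have h2 : ∀ x, (∑ y, p x y * h y) ^ 2 = ∑ v, ∑ y, p v x * h v * (p x y * h y) := by
    intro x
    rw [sq, Finset.sum_mul_sum]
    exact Finset.sum_congr rfl fun v _ => Finset.sum_congr rfl fun y _ => by rw [hs x v]
  simp only [h2]
  rw [Finset.sum_comm]
  apply Finset.sum_congr rfl
  intro v _
  rw [Finset.sum_comm]

theorem reg (hFK : S_FK) (B : ℕ) (R ζ : ℝ) (hζ : 0 < ζ) :
    ∃ (B' : ℕ) (Lmax : ℝ), 1 ≤ Lmax ∧
    ∀ (V : Type) [Fintype V] [Nonempty V] (p : V → V → ℝ),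
      (∀ x y, p x y = p y x) → (∀ x y, 0 ≤ p x y) → Tail p R Lmax →
      ∀ q : V → Fin B, ∃ q' : V → Fin B', (∃ r : Fin B' → Fin B, ∀ x, q x = r (q' x)) ∧
        ∀ f : V → ℝ, (∀ x, |f x| ≤ 1) →
          ∑ x, (∑ y, p x y * (f y - av q' f y)) ^ 2 ≤ ζ * (Fintype.card V : ℝ) ^ 3 := by
  set L1 : ℝ := max 1 ((8 * R / ζ) ^ 2) with hL1
  have hL11 : 1 ≤ L1 := le_max_left _ _
  have hL1s : 8 * R / ζ ≤ Real.sqrt L1 := by
    apply Real.le_sqrt_of_sq_le
    exact le_max_right _ _
  have hsq : 0 < Real.sqrt L1 := Real.sqrt_pos.2 (by linarith)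
  have hbound : 4 * (R / Real.sqrt L1) ≤ ζ / 2 := by
    rw [mul_div_assoc', div_le_iff₀ hsq]
    rw [div_le_iff₀ hζ] at hL1s
    nlinarith
  obtain ⟨B', hB'⟩ := hFK B (ζ / 2) L1 (by positivity) (by linarith)
  refine ⟨B', L1, hL11, ?_⟩
  intro V _ _ p hs hp hT q
  classical
  set k : V → V → ℝ := fun v y => if L1 < rho p v y then 0 else rho p v y with hk
  have hkL : ∀ v y, |k v y| ≤ L1 := by
    intro v y
    simp only [hk]
    split_ifs with h
    · simp; linarith
    · rw [abs_of_nonneg (rho_nonneg hp v y)]; exact not_lt.1 h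
  obtain ⟨q', hr, hq'⟩ := hB' V k hkL q
  refine ⟨q', hr, ?_⟩
  intro f hf
  have h1 := hq' f hf
  rw [sum_sq_P hs (fun y => f y - av q' f y)]
  have hh : ∀ x, |f x - av q' f x| ≤ 2 := by
    intro x
    have := abs_av_le q' hf x
    have h2 := hf x
    rw [abs_le] at *
    constructor <;> linarith
  have h3 : ∀ v y, (f v - av q' f v) * rho p v y * (f y - av q' f y) ≤
      (f v - av q' f v) * k v y * (f y - av q' f y) +
        4 * (if L1 < rho p v y then rho p v y else 0) := by
    intro v y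
    simp only [hk]
    split_ifs with h
    · have h4 : (f v - av q' f v) * (f y - av q' f y) ≤ 4 := by
        have h5 : |(f v - av q' f v) * (f y - av q' f y)| ≤ 2 * 2 := by
          rw [abs_mul]; exact mul_le_mul (hh v) (hh y) (abs_nonneg _) (by norm_num)
        have := (abs_le.1 h5).2
        linarith
      have h6 := rho_nonneg hp v y
      nlinarith
    · linarith
  have h7 : ∑ v, ∑ y, (f v - av q' f v) * rho p v y * (f y - av q' f y) ≤
      ζ / 2 * (Fintype.card V : ℝ) ^ 2 + 4 * ((R / Real.sqrt L1) * (Fintype.card V : ℝ) ^ 2) := by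
    calc _ ≤ ∑ v, ∑ y, ((f v - av q' f v) * k v y * (f y - av q' f y) +
        4 * (if L1 < rho p v y then rho p v y else 0)) :=
          Finset.sum_le_sum fun v _ => Finset.sum_le_sum fun y _ => h3 v y
      _ = ∑ v, ∑ y, (f v - av q' f v) * k v y * (f y - av q' f y) +
        4 * ∑ v, ∑ y, (if L1 < rho p v y then rho p v y else 0) := by
          simp only [Finset.sum_add_distrib, Finset.mul_sum]
      _ ≤ _ := by
          have := hT L1 hL11 le_rfl
          linarith
  have hn : (0 : ℝ) ≤ Fintype.card V := by positivity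
  calc (Fintype.card V : ℝ) * ∑ v, ∑ y, (f v - av q' f v) * rho p v y * (f y - av q' f y)
      ≤ (Fintype.card V : ℝ) * (ζ / 2 * (Fintype.card V : ℝ) ^ 2 +
        4 * ((R / Real.sqrt L1) * (Fintype.card V : ℝ) ^ 2)) :=
          mul_le_mul_of_nonneg_left h7 hn
    _ = (ζ / 2 + 4 * (R / Real.sqrt L1)) * (Fintype.card V : ℝ) ^ 3 := by ring
    _ ≤ ζ * (Fintype.card V : ℝ) ^ 3 := by
          apply mul_le_mul_of_nonneg_right _ (by positivity)
          linarith

end Pool.Agent.Helper38K9.PT
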